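import Pool.Agent.Helper227.RD.Jump

set_option autoImplicit false

/-!
An operator `X ↦ W_e^X` with `X <_T W_e^X <_T X'` (even low over `X`) which is invariant under all
primitive recursive changes of the oracle.
-/

namespace Pool.Agent.H548R2.Post

open Encodable Pool.Agent.Helper227
open Nat.Partrec (Code)

/-- The `e`-th program halts within `s` steps on the input `(τ, z)`. -/
def hlt (s e z : ℕ) (τ : List Bool) : Bool :=
  (Code.evaln s (Denumerable.ofNat Code e) (encode (τ, z))).isSome

/-- `z` is enumerated into the `e`-th set c.e. in `Y` by stage `s`. -/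
def En (s e z : ℕ) (Y : ℕ → Bool) : Prop := ∃ t ≤ s, hlt s e z (pre Y t) = true

/-- The least `t ≤ s` such that the `e`-th program halts within `s` steps on the prefix of length
`t` of `Y` and on `e`; and `0` if there is none. -/
def res (s e : ℕ) (Y : ℕ → Bool) : ℕ :=
  ((List.range (s + 1)).find? (fun t => hlt s e e (pre Y t))).getD 0

/-- The translate of `X` by the `k`-th set of the family `D`. -/
def sh (D : ℕ → ℕ → Bool) (k : ℕ) (X : ℕ → Bool) : ℕ → Bool := fun i => xor (X i) (D k i)

/-- The join of `X` with the finite set of the members of the list `a`. -/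
def jn (X : ℕ → Bool) (a : List ℕ) : ℕ → Bool :=
  fun i => if i % 2 = 0 then X (i / 2) else decide (i / 2 ∈ a)

/-- `z` may be put into the set at stage `s` for the sake of the `n`-th requirement. -/
def Good (D : ℕ → ℕ → Bool) (a : (ℕ → Bool) → List ℕ) (s n : ℕ) (X : ℕ → Bool) (z : ℕ) : Prop :=
  4 ^ (n + 1) ≤ z ∧ (∀ e < n, ∀ k < 2 ^ n, res s e (jn (sh D k X) (a (sh D k X))) ≤ z) ∧
    ∃ k < 2 ^ n, En s n z (sh D k X) ∧ ∀ y ∈ a (sh D k X), ¬ En s n y (sh D k X)

open Classical in
/-- The element put in at stage `s` for the `n`-th requirement. -/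
noncomputable def act (D : ℕ → ℕ → Bool) (a : (ℕ → Bool) → List ℕ) (s n : ℕ) (X : ℕ → Bool) :
    Option ℕ := (List.range s).find? (fun z => decide (Good D a s n X z))

/-- The elements put in before stage `s`. -/
noncomputable def A (D : ℕ → ℕ → Bool) : ℕ → (ℕ → Bool) → List ℕ
  | 0, _ => []
  | s + 1, X => A D s X ++ (List.range s).filterMap (fun n => act D (A D s) s n X)

open Classical in
/-- The operator: the join of `X` with the set of all elements put in. -/
noncomputable def WB (D : ℕ → ℕ → Bool) (X : ℕ → Bool) : ℕ → Bool :=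
  fun m => if m % 2 = 0 then X (m / 2) else decide (∃ s, m / 2 ∈ A D s X)

/-- `D` is a family closed under symmetric difference, with index operation xor. -/
def IsGrp (D : ℕ → ℕ → Bool) : Prop := ∀ j k i, D (j ^^^ k) i = xor (D j i) (D k i)

/-- The oracle extending a finite string by `false`. -/
def ext (σ : List Bool) : ℕ → Bool := fun i => σ.getD i false

/-! The construction on finite data. -/

/-- bit `i` of the `k`-th translate of `σ`, where the table `d` holds `D k i` at `pair k i` -/
def mX (d σ : List Bool) (k i : ℕ) : Bool := xor (σ.getD i false) (d.getD (Nat.pair k i) false)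

def pX (d σ : List Bool) (k t : ℕ) : List Bool := (List.range t).map (mX d σ k)

def pJ (d σ : List Bool) (k : ℕ) (a : List ℕ) (t : ℕ) : List Bool :=
  (List.range t).map (fun i => if i % 2 = 0 then mX d σ k (i / 2) else decide (i / 2 ∈ a))

def enB (s n z : ℕ) (d σ : List Bool) (k : ℕ) : Bool :=
  (List.range (s + 1)).any (fun t => hlt s n z (pX d σ k t))

def resB (s e : ℕ) (d σ : List Bool) (k : ℕ) (a : List ℕ) : ℕ :=
  ((List.range (s + 1)).find? (fun t => hlt s e e (pJ d σ k a t))).getD 0

/-- the `j`-th index in the class of `k` at level `n` -/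
def cl (n k j : ℕ) : ℕ := 2 ^ n * (k / 2 ^ n) + j

def goodB (d σ : List Bool) (V : List (List ℕ)) (s n k z : ℕ) : Bool :=
  decide (4 ^ (n + 1) ≤ z) &&
  (List.range n).all (fun e => (List.range (2 ^ n)).all (fun j =>
    decide (resB s e d σ (cl n k j) (V.getD (cl n k j) []) ≤ z))) &&
  (List.range (2 ^ n)).any (fun j => enB s n z d σ (cl n k j) &&
    (V.getD (cl n k j) []).all (fun y => !enB s n y d σ (cl n k j)))

def actB (d σ : List Bool) (V : List (List ℕ)) (s n k : ℕ) : Option ℕ :=
  (List.range s).find? (goodB d σ V s n k)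

def stepB (d σ : List Bool) (V : List (List ℕ)) (s : ℕ) : List (List ℕ) :=
  (List.range (2 ^ σ.length)).map
    (fun k => V.getD k [] ++ (List.range s).filterMap (fun n => actB d σ V s n k))

def tabB (d σ : List Bool) : ℕ → List (List ℕ)
  | 0 => []
  | s + 1 => stepB d σ (tabB d σ s) s

/-- the table of the first `N` values of `D` -/
def dtab (D : ℕ → ℕ → Bool) (N : ℕ) : List Bool :=
  (List.range N).map (fun p => D p.unpair.1 p.unpair.2)

end Pool.Agent.H548R2.Post
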