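import Pool.Agent.H548R2.Post.Defs

set_option autoImplicit false

namespace Pool.Agent.H548R2.Post

open Encodable Pool.Agent.Helper227
open Nat.Partrec (Code)

theorem hlt_mono {s s' : ℕ} (h : s ≤ s') {e z : ℕ} {τ : List Bool} (h1 : hlt s e z τ = true) :
    hlt s' e z τ = true := by
  unfold hlt at *
  rw [Option.isSome_iff_exists] at *
  obtain ⟨x, hx⟩ := h1
  exact ⟨x, Nat.Partrec.Code.evaln_mono h hx⟩

theorem exists_hlt_iff (e z : ℕ) (τ : List Bool) :
    (∃ s, hlt s e z τ = true) ↔ ((Denumerable.ofNat Code e).eval (encode (τ, z))).Dom := by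
  unfold hlt
  rw [Part.dom_iff_mem]
  constructor
  · rintro ⟨s, hs⟩
    rw [Option.isSome_iff_exists] at hs
    obtain ⟨x, hx⟩ := hs
    exact ⟨x, Nat.Partrec.Code.evaln_complete.2 ⟨s, hx⟩⟩
  · rintro ⟨x, hx⟩
    obtain ⟨s, hs⟩ := Nat.Partrec.Code.evaln_complete.1 hx
    exact ⟨s, by rw [Option.isSome_iff_exists]; exact ⟨x, hs⟩⟩

end Pool.Agent.H548R2.Post
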