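import Pool.Agent.H548R2.Post.Defs
import Pool.Agent.H548R2.Post.T01
set_option autoImplicit false
namespace Pool.Agent.H548R2.Post
open Encodable Pool.Agent.Helper227
open Nat.Partrec (Code)

theorem En_mono {s s' : ℕ} (h : s ≤ s') {e z : ℕ} {Y : ℕ → Bool} (h1 : En s e z Y) :
    En s' e z Y := by
  obtain ⟨t, ht, h2⟩ := h1
  exact ⟨t, ht.trans h, hlt_mono h h2⟩

theorem mem_WE_iff (Y : ℕ → Bool) (e z : ℕ) : z ∈ WE Y e ↔ ∃ s, En s e z Y := by
  constructor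
  · rintro ⟨k, hk⟩
    obtain ⟨s, hs⟩ := (exists_hlt_iff e z (pre Y k)).mpr hk
    exact ⟨max s k, k, le_max_right _ _, hlt_mono (le_max_left _ _) hs⟩
  · rintro ⟨s, t, _, h⟩
    exact ⟨t, (exists_hlt_iff e z (pre Y t)).mp ⟨s, h⟩⟩

end Pool.Agent.H548R2.Post
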