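import Pool.Agent.H548R2.Post.Defs
set_option autoImplicit false
namespace Pool.Agent.H548R2.Post
open Encodable Pool.Agent.Helper227
open Nat.Partrec (Code)

theorem T03_pre {Y Z : ℕ → Bool} {s t : ℕ} (h : ∀ i < s, Y i = Z i) (ht : t ≤ s) :
    pre Y t = pre Z t := by
  unfold pre
  refine List.map_congr_left fun i hi => h i ?_
  exact lt_of_lt_of_le (List.mem_range.mp hi) ht

theorem En_congr {s e z : ℕ} {Y Z : ℕ → Bool} (h : ∀ i < s, Y i = Z i) :
    En s e z Y ↔ En s e z Z := by
  unfold En
  constructor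
  · rintro ⟨t, ht, hh⟩
    exact ⟨t, ht, by rw [← T03_pre h ht]; exact hh⟩
  · rintro ⟨t, ht, hh⟩
    exact ⟨t, ht, by rw [T03_pre h ht]; exact hh⟩

theorem T03_find {α : Type} (l : List α) (p q : α → Bool) (h : ∀ a ∈ l, p a = q a) :
    l.find? p = l.find? q := by
  induction l with
  | nil => rfl
  | cons a l ih =>
    rw [List.find?_cons, List.find?_cons, h a List.mem_cons_self,
      ih fun b hb => h b (List.mem_cons_of_mem _ hb)]

theorem res_congr {s e : ℕ} {Y Z : ℕ → Bool} (h : ∀ i < s, Y i = Z i) :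
    res s e Y = res s e Z := by
  unfold res
  rw [T03_find (List.range (s + 1)) (fun t => hlt s e e (pre Y t)) (fun t => hlt s e e (pre Z t))]
  intro t ht
  have := List.mem_range.mp ht
  show hlt s e e (pre Y t) = hlt s e e (pre Z t)
  rw [T03_pre h (by omega)]

theorem res_le (s e : ℕ) (Y : ℕ → Bool) : res s e Y ≤ s := by
  unfold res
  rcases hf : (List.range (s + 1)).find? (fun t => hlt s e e (pre Y t)) with _ | t
  · exact Nat.zero_le _
  · have := List.mem_range.mp (List.mem_of_find?_eq_some hf)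
    show t ≤ s
    omega

end Pool.Agent.H548R2.Post
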