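import Pool.Agent.H548R2.Post.Defs

set_option autoImplicit false

namespace Pool.Agent.H548R2.Post

open Encodable Pool.Agent.Helper227
open Nat.Partrec (Code)

private theorem t04_res_le (s e : ℕ) (Y : ℕ → Bool) : res s e Y ≤ s := by
  unfold res
  cases hf : (List.range (s + 1)).find? (fun t => hlt s e e (pre Y t)) with
  | none => simp
  | some u =>
    have := List.mem_range.1 (List.mem_of_find?_eq_some hf)
    simp only [Option.getD_some]
    omega

theorem En_iff_res {s e : ℕ} {Y : ℕ → Bool} :
    En s e e Y ↔ hlt s e e (pre Y (res s e Y)) = true := by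
  constructor
  · rintro ⟨t, ht, h⟩
    unfold res
    cases hf : (List.range (s + 1)).find? (fun t => hlt s e e (pre Y t)) with
    | none =>
      rw [List.find?_eq_none] at hf
      exact absurd h (hf t (List.mem_range.2 (by omega)))
    | some u =>
      have := List.find?_some hf
      simpa using this
  · intro h
    exact ⟨res s e Y, t04_res_le s e Y, h⟩

theorem res_le_of_hlt {s e t : ℕ} {Y : ℕ → Bool} (ht : t ≤ s)
    (h : hlt s e e (pre Y t) = true) : res s e Y ≤ t := by
  unfold res
  cases hf : (List.range (s + 1)).find? (fun t => hlt s e e (pre Y t)) with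
  | none => simp
  | some u =>
    simp only [Option.getD_some]
    by_contra hlt'
    have h1 := (List.find?_range_eq_some.1 hf).2.2 t (by omega)
    rw [h] at h1
    simp at h1

end Pool.Agent.H548R2.Post
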