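import Pool.Agent.H548R2.Post.Defs
set_option autoImplicit false
namespace Pool.Agent.H548R2.Post
open Encodable Pool.Agent.Helper227
open Nat.Partrec (Code)

theorem sh_sh {D : ℕ → ℕ → Bool} (hD : IsGrp D) (j k : ℕ) (X : ℕ → Bool) :
    sh D j (sh D k X) = sh D (j ^^^ k) X := by
  funext i
  unfold sh
  rw [hD j k i]
  cases X i <;> cases D k i <;> cases D j i <;> rfl

theorem sh_zero {D : ℕ → ℕ → Bool} (hD : IsGrp D) (X : ℕ → Bool) : sh D 0 X = X := by
  funext i
  have h := hD 0 0 i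
  rw [Nat.xor_self, Bool.xor_self] at h
  unfold sh
  rw [h, Bool.xor_false]

theorem sh_self {D : ℕ → ℕ → Bool} (k : ℕ) (X : ℕ → Bool) : sh D k (sh D k X) = X := by
  funext i
  unfold sh
  cases X i <;> cases D k i <;> rfl

end Pool.Agent.H548R2.Post
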