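import Pool.Agent.H548R2.Post.Defs
set_option autoImplicit false
namespace Pool.Agent.H548R2.Post
open Encodable Pool.Agent.Helper227
open Nat.Partrec (Code)

theorem mem_A_succ {D : ℕ → ℕ → Bool} {s : ℕ} {X : ℕ → Bool} {z : ℕ} :
    z ∈ A D (s + 1) X ↔ z ∈ A D s X ∨ ∃ n < s, act D (A D s) s n X = some z := by
  change z ∈ A D s X ++ (List.range s).filterMap (fun n => act D (A D s) s n X) ↔ _
  rw [List.mem_append, List.mem_filterMap]
  constructor
  · rintro (h | ⟨n, hn, h⟩)
    · exact Or.inl h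
    · exact Or.inr ⟨n, List.mem_range.1 hn, h⟩
  · rintro (h | ⟨n, hn, h⟩)
    · exact Or.inl h
    · exact Or.inr ⟨n, List.mem_range.2 hn, h⟩

theorem A_mono {D : ℕ → ℕ → Bool} {s s' : ℕ} (h : s ≤ s') {X : ℕ → Bool} {z : ℕ}
    (hz : z ∈ A D s X) : z ∈ A D s' X := by
  induction h with
  | refl => exact hz
  | step _ ih => exact mem_A_succ.2 (Or.inl ih)

theorem act_spec {D : ℕ → ℕ → Bool} {a : (ℕ → Bool) → List ℕ} {s n : ℕ} {X : ℕ → Bool} {z : ℕ}
    (h : act D a s n X = some z) : z < s ∧ Good D a s n X z := by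
  classical
  unfold act at h
  refine ⟨List.mem_range.1 (List.mem_of_find?_eq_some h), ?_⟩
  have h2 := List.find?_some h
  exact of_decide_eq_true h2

theorem act_ne_none {D : ℕ → ℕ → Bool} {a : (ℕ → Bool) → List ℕ} {s n : ℕ} {X : ℕ → Bool} {z : ℕ}
    (hz : z < s) (h : Good D a s n X z) : act D a s n X ≠ none := by
  classical
  unfold act
  intro h2
  rw [List.find?_eq_none] at h2
  exact h2 z (List.mem_range.2 hz) (decide_eq_true h)

end Pool.Agent.H548R2.Post
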