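import Pool.Agent.H548R2.Post.Defs
set_option autoImplicit false
namespace Pool.Agent.H548R2.Post
open Encodable Pool.Agent.Helper227
open Nat.Partrec (Code)

theorem WB_even {D : ℕ → ℕ → Bool} (X : ℕ → Bool) (m : ℕ) : WB D X (2 * m) = X m := by
  unfold WB
  have h1 : 2 * m % 2 = 0 := by omega
  have h2 : 2 * m / 2 = m := by omega
  simp only [h1, h2, if_true]

theorem WB_odd {D : ℕ → ℕ → Bool} (X : ℕ → Bool) (m : ℕ) :
    WB D X (2 * m + 1) = true ↔ ∃ s, m ∈ A D s X := by
  unfold WB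
  have h1 : ¬ ((2 * m + 1) % 2 = 0) := by omega
  have h2 : (2 * m + 1) / 2 = m := by omega
  rw [if_neg h1, @decide_eq_true_iff _ (Classical.propDecidable _), h2]

end Pool.Agent.H548R2.Post
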