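import Pool.Agent.H548R2.Post.Defs
import Pool.Agent.H548R2.Post.T03

set_option autoImplicit false

namespace Pool.Agent.H548R2.Post

open Encodable Pool.Agent.Helper227
open Nat.Partrec (Code)

theorem t08_jn {s : ℕ} {X Y : ℕ → Bool} {a b : List ℕ} (h : ∀ i < s, X i = Y i) (hab : a = b) :
    ∀ i < s, jn X a i = jn Y b i := by
  intro i hi
  subst hab
  unfold jn
  split
  · exact h _ (lt_of_le_of_lt (Nat.div_le_self _ _) hi)
  · rfl

theorem t08_sh {D : ℕ → ℕ → Bool} {s k : ℕ} {X Y : ℕ → Bool} (h : ∀ i < s, X i = Y i) :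
    ∀ i < s, sh D k X i = sh D k Y i := by
  intro i hi
  unfold sh
  rw [h i hi]

theorem t08_Good {D : ℕ → ℕ → Bool} {a : (ℕ → Bool) → List ℕ} {s n z : ℕ} {X Y : ℕ → Bool}
    (h : ∀ i < s, X i = Y i) (ha : ∀ k, a (sh D k X) = a (sh D k Y)) :
    Good D a s n X z ↔ Good D a s n Y z := by
  have hE : ∀ (n' z' k : ℕ), En s n' z' (sh D k X) ↔ En s n' z' (sh D k Y) :=
    fun n' z' k => En_congr (t08_sh h)
  have hr : ∀ e k, res s e (jn (sh D k X) (a (sh D k X))) = res s e (jn (sh D k Y) (a (sh D k Y))) :=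
    fun e k => res_congr (t08_jn (t08_sh h) (ha k))
  unfold Good
  constructor
  · rintro ⟨h1, h2, k, hk, h3, h4⟩
    refine ⟨h1, ?_, k, hk, (hE n z k).1 h3, ?_⟩
    · intro e he k hk
      rw [← hr]
      exact h2 e he k hk
    · intro y hy hEn
      rw [← ha] at hy
      exact h4 y hy ((hE n y k).2 hEn)
  · rintro ⟨h1, h2, k, hk, h3, h4⟩
    refine ⟨h1, ?_, k, hk, (hE n z k).2 h3, ?_⟩
    · intro e he k hk
      rw [hr]
      exact h2 e he k hk
    · intro y hy hEn
      rw [ha] at hy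
      exact h4 y hy ((hE n y k).1 hEn)

theorem t08_act {D : ℕ → ℕ → Bool} {a : (ℕ → Bool) → List ℕ} {s n : ℕ} {X Y : ℕ → Bool}
    (h : ∀ i < s, X i = Y i) (ha : ∀ k, a (sh D k X) = a (sh D k Y)) :
    act D a s n X = act D a s n Y := by
  unfold act
  congr 1
  funext z
  exact decide_eq_decide.2 (t08_Good h ha)

theorem A_local (D : ℕ → ℕ → Bool) (s : ℕ) (X Y : ℕ → Bool) (h : ∀ i < s, X i = Y i) :
    A D s X = A D s Y := by
  induction s generalizing X Y with
  | zero => rfl
  | succ s ih =>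
    have h' : ∀ i < s, X i = Y i := fun i hi => h i (Nat.lt_succ_of_lt hi)
    have e1 : A D s X = A D s Y := ih X Y h'
    have e2 : ∀ n, act D (A D s) s n X = act D (A D s) s n Y :=
      fun n => t08_act h' (fun k => ih _ _ (t08_sh h'))
    show A D s X ++ (List.range s).filterMap (fun n => act D (A D s) s n X) =
      A D s Y ++ (List.range s).filterMap (fun n => act D (A D s) s n Y)
    rw [e1]
    congr 2
    funext n
    exact e2 n

end Pool.Agent.H548R2.Post
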