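import Pool.Agent.H548R2.Post.Defs
import Pool.Agent.H548R2.Post.T05
set_option autoImplicit false
namespace Pool.Agent.H548R2.Post
open Encodable Pool.Agent.Helper227
open Nat.Partrec (Code)

private theorem t09_sh {D : ℕ → ℕ → Bool} (hD : IsGrp D) (j k : ℕ) (X : ℕ → Bool) :
    sh D (k ^^^ j) (sh D j X) = sh D k X := by
  rw [sh_sh hD, Nat.xor_assoc, Nat.xor_self, Nat.xor_zero]

private theorem t09_imp {D : ℕ → ℕ → Bool} (hD : IsGrp D) (a : (ℕ → Bool) → List ℕ) (s n j : ℕ)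
    (hj : j < 2 ^ n) (X : ℕ → Bool) (z : ℕ) (h : Good D a s n (sh D j X) z) :
    Good D a s n X z := by
  obtain ⟨h1, h2, k, hk, h3, h4⟩ := h
  refine ⟨h1, ?_, ?_⟩
  · intro e he k hk
    have := h2 e he (k ^^^ j) (Nat.xor_lt_two_pow hk hj)
    rwa [t09_sh hD] at this
  · refine ⟨k ^^^ j, Nat.xor_lt_two_pow hk hj, ?_, ?_⟩
    · rwa [sh_sh hD] at h3
    · intro y hy
      rw [sh_sh hD] at h4
      exact h4 y hy

private theorem t09_iff {D : ℕ → ℕ → Bool} (hD : IsGrp D) (a : (ℕ → Bool) → List ℕ) (s n j : ℕ)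
    (hj : j < 2 ^ n) (X : ℕ → Bool) (z : ℕ) :
    Good D a s n (sh D j X) z ↔ Good D a s n X z := by
  refine ⟨t09_imp hD a s n j hj X z, fun h => ?_⟩
  apply t09_imp hD a s n j hj (sh D j X) z
  rw [sh_self]
  exact h

theorem act_sh {D : ℕ → ℕ → Bool} (hD : IsGrp D) (a : (ℕ → Bool) → List ℕ) (s n j : ℕ)
    (hj : j < 2 ^ n) (X : ℕ → Bool) : act D a s n (sh D j X) = act D a s n X := by
  unfold act
  congr 1
  funext z
  rw [t09_iff hD a s n j hj X z]

end Pool.Agent.H548R2.Post
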