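import Pool.Agent.H548R2.Post.Defs

set_option autoImplicit false

/-! T10: each requirement acts at most `2 ^ n` times (helper926). -/

namespace Pool.Agent.H548R2.Post

open Encodable Pool.Agent.Helper227
open Nat.Partrec (Code)

private theorem t10_hlt_mono {s s' : ℕ} (h : s ≤ s') {e z : ℕ} {τ : List Bool}
    (h1 : hlt s e z τ = true) : hlt s' e z τ = true := by
  unfold hlt at *
  rw [Option.isSome_iff_exists] at *
  obtain ⟨x, hx⟩ := h1
  exact ⟨x, Nat.Partrec.Code.evaln_mono h hx⟩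

private theorem t10_En_mono {s s' : ℕ} (h : s ≤ s') {e z : ℕ} {Y : ℕ → Bool} (h1 : En s e z Y) :
    En s' e z Y := by
  obtain ⟨t, ht, h2⟩ := h1
  exact ⟨t, ht.trans h, t10_hlt_mono h h2⟩

private theorem t10_A_step {D : ℕ → ℕ → Bool} {s : ℕ} {X : ℕ → Bool} {z : ℕ} :
    z ∈ A D (s + 1) X ↔ z ∈ A D s X ∨ ∃ n < s, act D (A D s) s n X = some z := by
  show z ∈ A D s X ++ (List.range s).filterMap (fun n => act D (A D s) s n X) ↔ _
  rw [List.mem_append, List.mem_filterMap]
  simp only [List.mem_range]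

private theorem t10_A_mono {D : ℕ → ℕ → Bool} {s s' : ℕ} (h : s ≤ s') {X : ℕ → Bool} {z : ℕ}
    (hz : z ∈ A D s X) : z ∈ A D s' X := by
  induction h with
  | refl => exact hz
  | step _ ih => exact t10_A_step.2 (Or.inl ih)

private theorem t10_act_spec {D : ℕ → ℕ → Bool} {a : (ℕ → Bool) → List ℕ} {s n : ℕ}
    {X : ℕ → Bool} {z : ℕ} (h : act D a s n X = some z) : z < s ∧ Good D a s n X z := by
  unfold act at h
  refine ⟨List.mem_range.1 (List.mem_of_find?_eq_some h), ?_⟩
  have := List.find?_some h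
  simpa using this

private theorem t10_sh_sh {D : ℕ → ℕ → Bool} (hD : IsGrp D) (j k : ℕ) (X : ℕ → Bool) :
    sh D j (sh D k X) = sh D (j ^^^ k) X := by
  funext i
  simp only [sh, hD j k i]
  cases X i <;> cases D k i <;> cases D j i <;> rfl

private theorem t10_Good_sh {D : ℕ → ℕ → Bool} (hD : IsGrp D) (a : (ℕ → Bool) → List ℕ)
    (s n j : ℕ) (hj : j < 2 ^ n) (X : ℕ → Bool) (z : ℕ) (h : Good D a s n X z) :
    Good D a s n (sh D j X) z := by
  obtain ⟨h1, h2, k, hk, h3⟩ := h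
  refine ⟨h1, ?_, k ^^^ j, Nat.xor_lt_two_pow hk hj, ?_⟩
  · intro e he k' hk'
    rw [t10_sh_sh hD]
    exact h2 e he _ (Nat.xor_lt_two_pow hk' hj)
  · rw [t10_sh_sh hD, Nat.xor_assoc, Nat.xor_self, Nat.xor_zero]
    exact h3

private theorem t10_sh_self {D : ℕ → ℕ → Bool} (k : ℕ) (X : ℕ → Bool) :
    sh D k (sh D k X) = X := by
  funext i
  simp only [sh]
  cases X i <;> cases D k i <;> rfl

private theorem t10_act_sh {D : ℕ → ℕ → Bool} (hD : IsGrp D) (a : (ℕ → Bool) → List ℕ)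
    (s n j : ℕ) (hj : j < 2 ^ n) (X : ℕ → Bool) :
    act D a s n (sh D j X) = act D a s n X := by
  have e : ∀ z, Good D a s n (sh D j X) z ↔ Good D a s n X z := by
    intro z
    constructor
    · intro h
      have := t10_Good_sh hD a s n j hj _ z h
      rwa [t10_sh_self] at this
    · exact t10_Good_sh hD a s n j hj X z
  unfold act
  congr 1
  funext z
  exact decide_eq_decide.2 (e z)

theorem act_finite {D : ℕ → ℕ → Bool} (hD : IsGrp D) (X : ℕ → Bool) (n : ℕ) :
    {s | n < s ∧ act D (A D s) s n X ≠ none}.Finite ∧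
      {s | n < s ∧ act D (A D s) s n X ≠ none}.ncard ≤ 2 ^ n := by
  have key : ∀ s, ∃ k, s ∈ {s | n < s ∧ act D (A D s) s n X ≠ none} →
      k < 2 ^ n ∧ ∃ z, act D (A D s) s n X = some z ∧ En s n z (sh D k X) ∧
        ∀ y ∈ A D s (sh D k X), ¬ En s n y (sh D k X) := by
    intro s
    by_cases hs : s ∈ {s | n < s ∧ act D (A D s) s n X ≠ none}
    · obtain ⟨h1, h2⟩ := hs
      obtain ⟨z, hz⟩ := Option.ne_none_iff_exists'.1 h2
      obtain ⟨-, -, -, k, hk, h3, h4⟩ := t10_act_spec hz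
      exact ⟨k, fun _ => ⟨hk, z, hz, h3, h4⟩⟩
    · exact ⟨0, fun h => absurd h hs⟩
  choose f hf using key
  have hlt' : ∀ s s', s ∈ {s | n < s ∧ act D (A D s) s n X ≠ none} →
      s' ∈ {s | n < s ∧ act D (A D s) s n X ≠ none} → s < s' → f s ≠ f s' := by
    intro s s' hs hs' hss he
    obtain ⟨hk, z, hz, h3, -⟩ := hf s hs
    obtain ⟨-, z', -, -, h4'⟩ := hf s' hs'
    have h5 : act D (A D s) s n (sh D (f s) X) = some z := by
      rw [t10_act_sh hD _ _ _ _ hk]; exact hz
    have h6 : z ∈ A D (s + 1) (sh D (f s) X) := t10_A_step.2 (Or.inr ⟨n, hs.1, h5⟩)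
    have h7 : z ∈ A D s' (sh D (f s) X) := t10_A_mono hss h6
    have h8 : En s' n z (sh D (f s) X) := t10_En_mono hss.le h3
    rw [he] at h7 h8
    exact h4' z h7 h8
  have hinj : Set.InjOn f {s | n < s ∧ act D (A D s) s n X ≠ none} := by
    intro s hs s' hs' he
    by_contra hne
    rcases lt_or_gt_of_ne hne with h | h
    · exact hlt' s s' hs hs' h he
    · exact hlt' s' s hs' hs h he.symm
  have hmaps : Set.MapsTo f {s | n < s ∧ act D (A D s) s n X ≠ none}
      ((Finset.range (2 ^ n) : Finset ℕ) : Set ℕ) := by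
    intro s hs
    exact Finset.mem_coe.2 (Finset.mem_range.2 (hf s hs).1)
  have hfin : {s | n < s ∧ act D (A D s) s n X ≠ none}.Finite :=
    Set.Finite.of_injOn hmaps hinj (Finset.finite_toSet _)
  refine ⟨hfin, ?_⟩
  have := Set.ncard_le_ncard_of_injOn f hmaps hinj (Finset.finite_toSet _)
  rwa [Set.ncard_coe_finset, Finset.card_range] at this

end Pool.Agent.H548R2.Post
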