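import Pool.Agent.H548R2.Post.T10

set_option autoImplicit false

/-! T11: eventually no action (helper926). -/

namespace Pool.Agent.H548R2.Post

open Encodable Pool.Agent.Helper227
open Nat.Partrec (Code)

theorem act_eventually {D : ℕ → ℕ → Bool} (hD : IsGrp D) (X : ℕ → Bool) (N : ℕ) :
    ∃ s0, N ≤ s0 ∧ ∀ s ≥ s0, ∀ n < N, act D (A D s) s n X = none := by
  have hfin : (⋃ n ∈ Finset.range N, {s | n < s ∧ act D (A D s) s n X ≠ none}).Finite :=
    Set.Finite.biUnion (Finset.finite_toSet _) fun n _ => (act_finite hD X n).1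
  obtain ⟨b, hb⟩ := hfin.bddAbove
  refine ⟨max N (b + 1), le_max_left _ _, fun s hs n hn => ?_⟩
  by_contra hne
  have h1 : N ≤ s := (le_max_left _ _).trans hs
  have h2 : b + 1 ≤ s := (le_max_right _ _).trans hs
  have h3 : s ∈ ⋃ n ∈ Finset.range N, {s | n < s ∧ act D (A D s) s n X ≠ none} := by
    simp only [Set.mem_iUnion]
    exact ⟨n, Finset.mem_range.2 hn, by omega, hne⟩
  have h4 := hb h3
  omega

end Pool.Agent.H548R2.Post
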