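import Pool.Agent.H548R2.Post.Defs
set_option autoImplicit false
namespace Pool.Agent.H548R2.Post
open Encodable Pool.Agent.Helper227
open Nat.Partrec (Code)

private theorem t12_A_mono {D : ℕ → ℕ → Bool} {s s' : ℕ} (h : s ≤ s') {X : ℕ → Bool} {z : ℕ}
    (hz : z ∈ A D s X) : z ∈ A D s' X := by
  induction h with
  | refl => exact hz
  | step _ ih =>
    show z ∈ A D _ X ++ _
    exact List.mem_append_left _ ih

/-- C4 -/
theorem jn_stable (D : ℕ → ℕ → Bool) (X : ℕ → Bool) (b : ℕ) :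
    ∃ s0, ∀ s ≥ s0, ∀ i < b, jn X (A D s X) i = WB D X i := by
  induction b with
  | zero => exact ⟨0, fun s _ i hi => absurd hi (Nat.not_lt_zero _)⟩
  | succ b ih =>
    obtain ⟨s0, hs0⟩ := ih
    obtain ⟨s1, hs1⟩ : ∃ s1, ∀ s ≥ s1, jn X (A D s X) b = WB D X b := by
      unfold jn WB
      by_cases hb : b % 2 = 0
      · exact ⟨0, fun s _ => by rw [if_pos hb, if_pos hb]⟩
      · by_cases hex : ∃ s, b / 2 ∈ A D s X
        · obtain ⟨s1, h1⟩ := hex
          refine ⟨s1, fun s hs => ?_⟩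
          have h2 : ∃ s, b / 2 ∈ A D s X := ⟨s1, h1⟩
          simp only [if_neg hb, t12_A_mono hs h1, h2, decide_true]
        · refine ⟨0, fun s _ => ?_⟩
          have h2 : ¬ b / 2 ∈ A D s X := fun h => hex ⟨s, h⟩
          simp only [if_neg hb, h2, hex, decide_false]
    refine ⟨max s0 s1, fun s hs i hi => ?_⟩
    rcases Nat.lt_succ_iff_lt_or_eq.1 hi with h | h
    · exact hs0 s (le_trans (le_max_left _ _) hs) i h
    · rw [h]
      exact hs1 s (le_trans (le_max_right _ _) hs)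

end Pool.Agent.H548R2.Post
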