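import Pool.Agent.H548R2.Post.T10

set_option autoImplicit false

/-! T13: the complement is infinite (helper926). -/

namespace Pool.Agent.H548R2.Post

open Encodable Pool.Agent.Helper227
open Nat.Partrec (Code)

private theorem t13_mem {D : ℕ → ℕ → Bool} {X : ℕ → Bool} {z : ℕ} (s : ℕ) (hz : z ∈ A D s X) :
    ∃ s' n, n < s' ∧ act D (A D s') s' n X = some z := by
  induction s with
  | zero => exact absurd hz (by simp [A])
  | succ s ih =>
    have h : z ∈ A D s X ++ (List.range s).filterMap (fun n => act D (A D s) s n X) := hz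
    rw [List.mem_append, List.mem_filterMap] at h
    rcases h with h | ⟨n, hn, h⟩
    · exact ih h
    · exact ⟨s, n, List.mem_range.1 hn, h⟩

private theorem t13_act_ge {D : ℕ → ℕ → Bool} {a : (ℕ → Bool) → List ℕ} {s n : ℕ}
    {X : ℕ → Bool} {z : ℕ} (h : act D a s n X = some z) : 4 ^ (n + 1) ≤ z := by
  unfold act at h
  have h1 := List.find?_some h
  have h2 : Good D a s n X z := by simpa using h1
  exact h2.1

private theorem t13_geom (N : ℕ) : (∑ n ∈ Finset.range N, 2 ^ n) + 1 = 2 ^ N := by
  induction N with
  | zero => simp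
  | succ N ih => rw [Finset.sum_range_succ, pow_succ]; omega

theorem coinfinite {D : ℕ → ℕ → Bool} (hD : IsGrp D) (X : ℕ → Bool) :
    {z | ¬ ∃ s, z ∈ A D s X}.Infinite := by
  intro hfin
  have key : ∀ N : ℕ, 4 ^ (N + 1) ≤ 2 ^ N + hfin.toFinset.card := by
    intro N
    let F : Finset ℕ := (Finset.range N).biUnion (fun n =>
      ((act_finite hD X n).1.toFinset).image (fun s => (act D (A D s) s n X).getD 0))
    have hF : F.card ≤ 2 ^ N := by
      have h1 : F.card ≤ ∑ n ∈ Finset.range N, 2 ^ n := by
        refine Finset.card_biUnion_le.trans (Finset.sum_le_sum fun n _ => ?_)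
        refine Finset.card_image_le.trans ?_
        rw [← Set.ncard_eq_toFinset_card _ (act_finite hD X n).1]
        exact (act_finite hD X n).2
      have := t13_geom N
      omega
    have hsub : Finset.range (4 ^ (N + 1)) ⊆ F ∪ hfin.toFinset := by
      intro z hz
      rw [Finset.mem_range] at hz
      rw [Finset.mem_union]
      by_cases hU : ∃ s, z ∈ A D s X
      · left
        obtain ⟨s, hs⟩ := hU
        obtain ⟨s', n, hn, ha⟩ := t13_mem s hs
        have h4 := t13_act_ge ha
        have hnN : n < N := by
          have h5 : 4 ^ (n + 1) < 4 ^ (N + 1) := h4.trans_lt hz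
          have h6 := (Nat.pow_lt_pow_iff_right (by norm_num : 1 < 4)).1 h5
          omega
        refine Finset.mem_biUnion.2 ⟨n, Finset.mem_range.2 hnN, Finset.mem_image.2 ⟨s', ?_, ?_⟩⟩
        · rw [Set.Finite.mem_toFinset]
          exact ⟨hn, by rw [ha]; simp⟩
        · rw [ha]; rfl
      · right
        rw [Set.Finite.mem_toFinset]
        exact hU
    have := (Finset.card_le_card hsub).trans (Finset.card_union_le _ _)
    rw [Finset.card_range] at this
    omega
  have h1 := key hfin.toFinset.card
  set c := hfin.toFinset.card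
  have h2 : c < 2 ^ c := Nat.lt_two_pow_self
  have h3 : 2 ^ c ≤ 4 ^ c := Nat.pow_le_pow_left (by norm_num) c
  rw [pow_succ] at h1
  omega

end Pool.Agent.H548R2.Post
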