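import Pool.Agent.H548R2.Post.Defs
import Pool.Agent.H548R2.Post.T04
import Pool.Agent.H548R2.Post.T05
import Pool.Agent.H548R2.Post.T06

set_option autoImplicit false

namespace Pool.Agent.H548R2.Post

open Encodable Pool.Agent.Helper227
open Nat.Partrec (Code)

private theorem t14_hlt_succ {s e z : ℕ} {τ : List Bool} (h1 : hlt s e z τ = true) :
    hlt (s + 1) e z τ = true := by
  unfold hlt at h1 ⊢
  rw [Option.isSome_iff_exists] at h1 ⊢
  obtain ⟨x, hx⟩ := h1
  exact ⟨x, Code.evaln_mono (Nat.le_succ s) hx⟩

private theorem t14_res_le (s e : ℕ) (Y : ℕ → Bool) : res s e Y ≤ s := by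
  unfold res
  cases hf : (List.range (s + 1)).find? (fun t => hlt s e e (pre Y t)) with
  | none => simp
  | some u =>
    have := List.mem_range.1 (List.mem_of_find?_eq_some hf)
    simp only [Option.getD_some]
    omega

/-- once the requirements up to `e` are silent, a halting computation is preserved -/
theorem res_step {D : ℕ → ℕ → Bool} (hD : IsGrp D) (X : ℕ → Bool) {s e : ℕ}
    (h0 : ∀ n < e + 1, act D (A D s) s n X = none)
    (h : En s e e (jn X (A D s X))) :
    En (s + 1) e e (jn X (A D (s + 1) X)) ∧
      res (s + 1) e (jn X (A D (s + 1) X)) ≤ res s e (jn X (A D s X)) := by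
  have h1 := En_iff_res.1 h
  have hr := t14_res_le s e (jn X (A D s X))
  have hpre : pre (jn X (A D (s + 1) X)) (res s e (jn X (A D s X))) =
      pre (jn X (A D s X)) (res s e (jn X (A D s X))) := by
    unfold pre
    apply List.map_congr_left
    intro i hi
    rw [List.mem_range] at hi
    unfold jn
    by_cases h2 : i % 2 = 0
    · rw [if_pos h2, if_pos h2]
    · rw [if_neg h2, if_neg h2]
      apply decide_eq_decide.2
      constructor
      · intro hz
        rcases mem_A_succ.1 hz with hz | ⟨n, _, hn2⟩
        · exact hz
        · exfalso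
          have hne : e < n := by
            by_contra hcon
            have := h0 n (by omega)
            rw [this] at hn2
            exact absurd hn2 (by simp)
          have hg := (act_spec hn2).2.2.1 e hne 0 (by positivity)
          rw [sh_zero hD] at hg
          omega
      · intro hz
        exact mem_A_succ.2 (Or.inl hz)
  have h3 : hlt (s + 1) e e (pre (jn X (A D (s + 1) X)) (res s e (jn X (A D s X)))) = true := by
    rw [hpre]
    exact t14_hlt_succ h1
  exact ⟨⟨_, by omega, h3⟩, res_le_of_hlt (by omega) h3⟩

end Pool.Agent.H548R2.Post
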