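import Pool.Agent.H548R2.Post.Defs
import Pool.Agent.H548R2.Post.T12
set_option autoImplicit false
namespace Pool.Agent.H548R2.Post
open Encodable Pool.Agent.Helper227
open Nat.Partrec (Code)

private theorem t16_mono {s s' : ℕ} (h : s ≤ s') {e z : ℕ} {τ : List Bool}
    (h1 : hlt s e z τ = true) : hlt s' e z τ = true := by
  unfold hlt at h1 ⊢
  rw [Option.isSome_iff_exists] at h1 ⊢
  obtain ⟨a, ha⟩ := h1
  exact ⟨a, Code.evaln_mono h ha⟩

private theorem t16_ex (e z : ℕ) (τ : List Bool)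
    (h : ((Denumerable.ofNat Code e).eval (encode (τ, z))).Dom) : ∃ s, hlt s e z τ = true := by
  obtain ⟨s, hs⟩ := Code.evaln_complete.1 (Part.get_mem h)
  refine ⟨s, ?_⟩
  unfold hlt
  rw [Option.isSome_iff_exists]
  exact ⟨_, hs⟩

/-- C7a -/
theorem jump_true {D : ℕ → ℕ → Bool} (X : ℕ → Bool) (e : ℕ)
    (h : jump (WB D X) e = true) : ∃ s0, ∀ s ≥ s0, En s e e (jn X (A D s X)) := by
  rw [jump_eq_true] at h
  obtain ⟨k, hk⟩ := h
  obtain ⟨s1, hs1⟩ := t16_ex e e _ hk
  obtain ⟨s2, hs2⟩ := jn_stable D X k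
  refine ⟨max (max s1 s2) k, fun s hs => ⟨k, (le_max_right _ _).trans hs, ?_⟩⟩
  have h1 : s1 ≤ s := ((le_max_left s1 s2).trans (le_max_left _ _)).trans hs
  have h2 : s2 ≤ s := ((le_max_right s1 s2).trans (le_max_left _ _)).trans hs
  have h3 : pre (jn X (A D s X)) k = (List.range k).map (WB D X) := by
    unfold pre
    refine List.map_congr_left fun i hi => ?_
    exact hs2 s h2 i (List.mem_range.1 hi)
  rw [h3]
  exact t16_mono h1 hs1

end Pool.Agent.H548R2.Post
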