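import Pool.Agent.H548R2.Post.Defs
import Pool.Agent.H548R2.Post.T01
import Pool.Agent.H548R2.Post.T04
import Pool.Agent.H548R2.Post.T11
import Pool.Agent.H548R2.Post.T12
import Pool.Agent.H548R2.Post.T14
set_option autoImplicit false
namespace Pool.Agent.H548R2.Post
open Encodable Pool.Agent.Helper227
open Nat.Partrec (Code)

theorem jump_false {D : ℕ → ℕ → Bool} (hD : IsGrp D) (X : ℕ → Bool) (e : ℕ)
    (h : jump (WB D X) e = false) : ∃ s0, ∀ s ≥ s0, ¬ En s e e (jn X (A D s X)) := by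
  obtain ⟨s0, _, hs0⟩ := act_eventually hD X (e + 1)
  refine ⟨s0, ?_⟩
  intro s1 hs1 hEn
  have hind : ∀ s ≥ s1, En s e e (jn X (A D s X)) ∧
      res s e (jn X (A D s X)) ≤ res s1 e (jn X (A D s1 X)) := by
    intro s hs
    induction s, hs using Nat.le_induction with
    | base => exact ⟨hEn, le_rfl⟩
    | succ s hs ih =>
      obtain ⟨h1, h2⟩ := res_step hD X (hs0 s (le_trans hs1 hs)) ih.1
      exact ⟨h1, h2.trans ih.2⟩
  obtain ⟨s2, hs2⟩ := jn_stable D X (res s1 e (jn X (A D s1 X)))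
  obtain ⟨h1, h2⟩ := hind (max s1 s2) (le_max_left _ _)
  have h3 := En_iff_res.mp h1
  have h4 : pre (jn X (A D (max s1 s2) X))
      (res (max s1 s2) e (jn X (A D (max s1 s2) X))) =
      pre (WB D X) (res (max s1 s2) e (jn X (A D (max s1 s2) X))) := by
    unfold pre
    apply List.map_congr_left
    intro i hi
    rw [List.mem_range] at hi
    exact hs2 _ (le_max_right _ _) i (lt_of_lt_of_le hi h2)
  rw [h4] at h3
  have h5 : jump (WB D X) e = true :=
    jump_eq_true.mpr ⟨_, (exists_hlt_iff e e _).mp ⟨_, h3⟩⟩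
  rw [h] at h5
  exact Bool.false_ne_true h5

end Pool.Agent.H548R2.Post
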