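import Pool.Agent.H548R2.Post.Defs
import Pool.Agent.H548R2.Post.T11
import Pool.Agent.H548R2.Post.T14

set_option autoImplicit false

namespace Pool.Agent.H548R2.Post

open Encodable Pool.Agent.Helper227
open Nat.Partrec (Code)

theorem t15_res_le (s e : ℕ) (Y : ℕ → Bool) : res s e Y ≤ s := by
  unfold res
  rcases h : (List.range (s + 1)).find? (fun t => hlt s e e (pre Y t)) with _ | t
  · simp
  · have := List.mem_of_find?_eq_some h
    rw [List.mem_range] at this
    simp only [Option.getD_some]
    omega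

theorem t15_res_zero {s e : ℕ} {Y : ℕ → Bool} (h : ¬ En s e e Y) : res s e Y = 0 := by
  unfold res
  have h1 : (List.range (s + 1)).find? (fun t => hlt s e e (pre Y t)) = none := by
    rw [List.find?_eq_none]
    intro t ht ht2
    rw [List.mem_range] at ht
    exact h ⟨t, by omega, ht2⟩
  rw [h1]
  rfl

/-- C6b -/
theorem res_bounded {D : ℕ → ℕ → Bool} (hD : IsGrp D) (X : ℕ → Bool) (e : ℕ) :
    ∃ b, ∀ s, res s e (jn X (A D s X)) ≤ b := by
  obtain ⟨s0, _, h0⟩ := act_eventually hD X (e + 1)
  by_cases hC : ∃ s1, s0 ≤ s1 ∧ En s1 e e (jn X (A D s1 X))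
  · obtain ⟨s1, hs1, hE⟩ := hC
    have key : ∀ k, En (s1 + k) e e (jn X (A D (s1 + k) X)) ∧
        res (s1 + k) e (jn X (A D (s1 + k) X)) ≤ res s1 e (jn X (A D s1 X)) := by
      intro k
      induction k with
      | zero => exact ⟨hE, le_rfl⟩
      | succ k ih =>
        have := res_step hD X (s := s1 + k) (e := e)
          (fun n hn => h0 (s1 + k) (by omega) n hn) ih.1
        exact ⟨this.1, this.2.trans ih.2⟩
    refine ⟨s1, fun s => ?_⟩
    rcases le_total s1 s with h | h
    · obtain ⟨k, rfl⟩ := Nat.exists_eq_add_of_le h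
      exact (key k).2.trans (t15_res_le _ _ _)
    · exact (t15_res_le _ _ _).trans h
  · refine ⟨s0, fun s => ?_⟩
    rcases le_total s0 s with h | h
    · rw [t15_res_zero (fun hE => hC ⟨s, h, hE⟩)]
      exact Nat.zero_le _
    · exact (t15_res_le _ _ _).trans h

end Pool.Agent.H548R2.Post
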