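import Pool.Agent.H548R2.Post.Defs
import Pool.Agent.H548R2.Post.T02
import Pool.Agent.H548R2.Post.T05
import Pool.Agent.H548R2.Post.T06
import Pool.Agent.H548R2.Post.T10
import Pool.Agent.H548R2.Post.T15
set_option autoImplicit false
namespace Pool.Agent.H548R2.Post
open Encodable Pool.Agent.Helper227
open Nat.Partrec (Code)

/-- C8 -/
theorem simple {D : ℕ → ℕ → Bool} (hD : IsGrp D) (X : ℕ → Bool) (n : ℕ)
    (h : (WE X n).Infinite) : ∃ z ∈ WE X n, ∃ s, z ∈ A D s X := by
  classical
  by_contra hcon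
  push Not at hcon
  have hb : ∀ e k, ∃ b, ∀ s, res s e (jn (sh D k X) (A D s (sh D k X))) ≤ b :=
    fun e k => res_bounded hD (sh D k X) e
  choose b hb using hb
  have hB : ∀ e < n, ∀ k < 2 ^ n,
      b e k ≤ ∑ e ∈ Finset.range n, ∑ k ∈ Finset.range (2 ^ n), b e k := by
    intro e he k hk
    have h1 : b e k ≤ ∑ k ∈ Finset.range (2 ^ n), b e k :=
      Finset.single_le_sum (f := fun k => b e k) (fun _ _ => Nat.zero_le _)
        (Finset.mem_range.2 hk)
    have h2 : ∑ k ∈ Finset.range (2 ^ n), b e k ≤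
        ∑ e ∈ Finset.range n, ∑ k ∈ Finset.range (2 ^ n), b e k :=
      Finset.single_le_sum (f := fun e => ∑ k ∈ Finset.range (2 ^ n), b e k)
        (fun _ _ => Nat.zero_le _) (Finset.mem_range.2 he)
    exact h1.trans h2
  obtain ⟨z, hz, hzB⟩ := h.exists_gt
    (max (∑ e ∈ Finset.range n, ∑ k ∈ Finset.range (2 ^ n), b e k) (4 ^ (n + 1)))
  obtain ⟨s1, hs1⟩ := (mem_WE_iff X n z).1 hz
  have hinf : {s | n < s ∧ act D (A D s) s n X ≠ none}.Infinite := by
    refine Set.Infinite.mono (s := Set.Ioi (max (max s1 z) n)) ?_ (Set.Ioi_infinite _)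
    intro s hs
    have h0 : max (max s1 z) n < s := hs
    have h1 : s1 < s := lt_of_le_of_lt ((le_max_left _ _).trans (le_max_left _ _)) h0
    have h2 : z < s := lt_of_le_of_lt ((le_max_right _ _).trans (le_max_left _ _)) h0
    have h3 : n < s := lt_of_le_of_lt (le_max_right _ _) h0
    refine ⟨h3, act_ne_none h2 ⟨?_, ?_, ?_⟩⟩
    · exact (lt_of_le_of_lt (le_max_right _ _) hzB).le
    · intro e he k hk
      exact (hb e k s).trans ((hB e he k hk).trans (lt_of_le_of_lt (le_max_left _ _) hzB).le)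
    · refine ⟨0, by positivity, ?_, ?_⟩
      · rw [sh_zero hD]
        exact En_mono h1.le hs1
      · intro y hy hEn
        rw [sh_zero hD] at hy hEn
        exact hcon y ((mem_WE_iff X n y).2 ⟨s, hEn⟩) s hy
  exact hinf (act_finite hD X n).1

end Pool.Agent.H548R2.Post
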