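import Pool.Agent.H548R2.Post.Defs
import Pool.Agent.H548R2.Post.T06
import Pool.Agent.H548R2.Post.T09
import Pool.Agent.H548R2.Post.T11
set_option autoImplicit false
namespace Pool.Agent.H548R2.Post
open Encodable Pool.Agent.Helper227
open Nat.Partrec (Code)

theorem almost_equal {D : ℕ → ℕ → Bool} (hD : IsGrp D) (X : ℕ → Bool) (k : ℕ) :
    ∃ b, ∀ z ≥ b, ((∃ s, z ∈ A D s X) ↔ ∃ s, z ∈ A D s (sh D k X)) := by
  have hk : k < 2 ^ k := Nat.lt_two_pow_self
  obtain ⟨s1, -, h1⟩ := act_eventually hD X k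
  obtain ⟨s2, -, h2⟩ := act_eventually hD (sh D k X) k
  obtain ⟨s0, hs0⟩ : ∃ s0, s0 = max s1 s2 := ⟨_, rfl⟩
  have key : ∀ s ≥ s0, ∀ n z, act D (A D s) s n X = some z ↔
      act D (A D s) s n (sh D k X) = some z := by
    intro s hs n z
    by_cases hn : n < k
    · rw [h1 s (by omega) n hn, h2 s (by omega) n hn]
    · have hkn : k < 2 ^ n := lt_of_lt_of_le hk (Nat.pow_le_pow_right (by norm_num) (by omega))
      rw [act_sh hD (A D s) s n k hkn X]
  have hmem : ∀ (Y : ℕ → Bool) (z s : ℕ), z ∈ A D s Y →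
      z ∈ A D s0 Y ∨ ∃ s' ≥ s0, ∃ n < s', act D (A D s') s' n Y = some z := by
    intro Y z s
    induction s with
    | zero => intro h; exact Or.inl (A_mono (Nat.zero_le _) h)
    | succ s ih =>
      intro h
      rcases mem_A_succ.1 h with h' | ⟨n, hn, h'⟩
      · exact ih h'
      · by_cases hss : s0 ≤ s
        · exact Or.inr ⟨s, hss, n, hn, h'⟩
        · exact Or.inl (A_mono (by omega) h)
  refine ⟨(A D s0 X ++ A D s0 (sh D k X)).toFinset.sup id + 1, fun z hz => ?_⟩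
  have hbd : z ∉ A D s0 X ++ A D s0 (sh D k X) := by
    intro h
    have := Finset.le_sup (f := id) (List.mem_toFinset.2 h)
    simp only [id] at this
    omega
  rw [List.mem_append, not_or] at hbd
  constructor
  · rintro ⟨s, hs⟩
    rcases hmem X z s hs with h | ⟨s', hs', n, hn, h⟩
    · exact absurd h hbd.1
    · exact ⟨s' + 1, mem_A_succ.2 (Or.inr ⟨n, hn, (key s' hs' n z).1 h⟩)⟩
  · rintro ⟨s, hs⟩
    rcases hmem (sh D k X) z s hs with h | ⟨s', hs', n, hn, h⟩
    · exact absurd h hbd.2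
    · exact ⟨s' + 1, mem_A_succ.2 (Or.inr ⟨n, hn, (key s' hs' n z).2 h⟩)⟩

end Pool.Agent.H548R2.Post
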