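import Pool.Agent.H548R2.Post.Defs
set_option autoImplicit false
namespace Pool.Agent.H548R2.Post
open Encodable Pool.Agent.Helper227
open Nat.Partrec (Code)

theorem T20_step : Primrec₂ (fun (p : ℕ × ℕ) (q : ℕ × ℕ) => q.2 * p.1) := by
  have h : Primrec (fun x : (ℕ × ℕ) × (ℕ × ℕ) => x.2.2 * x.1.1) :=
    Primrec.nat_mul.comp (Primrec.snd.comp Primrec.snd) (Primrec.fst.comp Primrec.fst)
  exact h

theorem primrec_pow : Primrec₂ (fun a b : ℕ => a ^ b) := by
  have h1 : Primrec (fun p : ℕ × ℕ => (Nat.rec 1 (fun n IH => (fun (p : ℕ × ℕ) (q : ℕ × ℕ) =>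
      q.2 * p.1) p (n, IH)) p.2 : ℕ)) :=
    Primrec.nat_rec' (f := fun p : ℕ × ℕ => p.2) (g := fun _ : ℕ × ℕ => (1 : ℕ))
      Primrec.snd (Primrec.const 1) T20_step
  have h2 : Primrec (fun p : ℕ × ℕ => p.1 ^ p.2) := by
    refine h1.of_eq ?_
    rintro ⟨a, b⟩
    show (Nat.rec 1 (fun n IH => IH * a) b : ℕ) = a ^ b
    induction b with
    | zero => simp
    | succ b ih =>
      rw [pow_succ, ← ih]
  exact h2

theorem primrec_cl : Primrec fun x : ℕ × ℕ × ℕ => cl x.1 x.2.1 x.2.2 := by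
  unfold cl
  have h2 : Primrec (fun x : ℕ × ℕ × ℕ => 2 ^ x.1) :=
    primrec_pow.comp (Primrec.const 2) Primrec.fst
  exact Primrec.nat_add.comp (Primrec.nat_mul.comp h2 (Primrec.nat_div.comp
    (Primrec.fst.comp Primrec.snd) h2)) (Primrec.snd.comp Primrec.snd)

end Pool.Agent.H548R2.Post
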