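import Pool.Agent.H548R2.Post.Defs
set_option autoImplicit false
namespace Pool.Agent.H548R2.Post
open Encodable Pool.Agent.Helper227
open Nat.Partrec (Code)

theorem primrec_hlt : Primrec fun x : ℕ × ℕ × ℕ × List Bool => hlt x.1 x.2.1 x.2.2.1 x.2.2.2 := by
  unfold hlt
  refine Primrec.option_isSome.comp ?_
  have h := Nat.Partrec.Code.primrec_evaln
  have hs : Primrec fun x : ℕ × ℕ × ℕ × List Bool => x.1 := Primrec.fst
  have hc : Primrec fun x : ℕ × ℕ × ℕ × List Bool => Denumerable.ofNat Code x.2.1 :=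
    (Primrec.ofNat Code).comp (Primrec.fst.comp Primrec.snd)
  have he : Primrec fun x : ℕ × ℕ × ℕ × List Bool => encode (x.2.2.2, x.2.2.1) :=
    Primrec.encode.comp ((Primrec.snd.comp (Primrec.snd.comp Primrec.snd)).pair
      (Primrec.fst.comp (Primrec.snd.comp Primrec.snd)))
  exact h.comp ((hs.pair hc).pair he)

end Pool.Agent.H548R2.Post
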