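import Pool.Agent.H548R2.Post.Defs
set_option autoImplicit false
namespace Pool.Agent.H548R2.Post
open Encodable Pool.Agent.Helper227
open Nat.Partrec (Code)

theorem primrec_mX : Primrec fun x : (List Bool × List Bool) × ℕ × ℕ =>
    mX x.1.1 x.1.2 x.2.1 x.2.2 := by
  have h1 : Primrec fun x : (List Bool × List Bool) × ℕ × ℕ => x.1.2.getD x.2.2 false :=
    (Primrec.list_getD false).comp (Primrec.snd.comp Primrec.fst) (Primrec.snd.comp Primrec.snd)
  have h2 : Primrec fun x : (List Bool × List Bool) × ℕ × ℕ => Nat.pair x.2.1 x.2.2 :=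
    Primrec₂.natPair.comp (Primrec.fst.comp Primrec.snd) (Primrec.snd.comp Primrec.snd)
  have h3 : Primrec fun x : (List Bool × List Bool) × ℕ × ℕ =>
      x.1.1.getD (Nat.pair x.2.1 x.2.2) false :=
    (Primrec.list_getD false).comp (Primrec.fst.comp Primrec.fst) h2
  exact (Primrec.dom_bool₂ xor).comp h1 h3

theorem primrec_pX : Primrec fun x : (List Bool × List Bool) × ℕ × ℕ =>
    pX x.1.1 x.1.2 x.2.1 x.2.2 := by
  have h1 : Primrec fun x : (List Bool × List Bool) × ℕ × ℕ => List.range x.2.2 :=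
    Primrec.list_range.comp (Primrec.snd.comp Primrec.snd)
  have h2 : Primrec₂ fun (x : (List Bool × List Bool) × ℕ × ℕ) (i : ℕ) =>
      mX x.1.1 x.1.2 x.2.1 i :=
    primrec_mX.comp (Primrec.pair (Primrec.fst.comp Primrec.fst)
      (Primrec.pair (Primrec.fst.comp (Primrec.snd.comp Primrec.fst)) Primrec.snd))
  exact Primrec.list_map h1 h2

theorem t22_mem : Primrec₂ fun (y : ℕ) (a : List ℕ) => decide (y ∈ a) := by
  have h1 : Primrec₂ fun (y : ℕ) (a : List ℕ) => decide (a.idxOf y < a.length) :=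
    (Primrec.nat_lt.comp (Primrec.list_idxOf.comp Primrec.fst Primrec.snd)
      (Primrec.list_length.comp Primrec.snd)).decide
  refine h1.of_eq fun y a => ?_
  rw [decide_eq_decide]
  exact List.idxOf_lt_length_iff

theorem primrec_pJ : Primrec fun x : (List Bool × List Bool) × (ℕ × List ℕ) × ℕ =>
    pJ x.1.1 x.1.2 x.2.1.1 x.2.1.2 x.2.2 := by
  have h1 : Primrec fun x : (List Bool × List Bool) × (ℕ × List ℕ) × ℕ => List.range x.2.2 :=
    Primrec.list_range.comp (Primrec.snd.comp Primrec.snd)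
  have hd : Primrec fun y : ((List Bool × List Bool) × (ℕ × List ℕ) × ℕ) × ℕ => y.2 / 2 :=
    Primrec.nat_div.comp Primrec.snd (Primrec.const 2)
  have hm : Primrec fun y : ((List Bool × List Bool) × (ℕ × List ℕ) × ℕ) × ℕ => y.2 % 2 :=
    Primrec.nat_mod.comp Primrec.snd (Primrec.const 2)
  have hf1 : Primrec fun y : ((List Bool × List Bool) × (ℕ × List ℕ) × ℕ) × ℕ =>
      mX y.1.1.1 y.1.1.2 y.1.2.1.1 (y.2 / 2) :=
    primrec_mX.comp (Primrec.pair (Primrec.fst.comp Primrec.fst)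
      (Primrec.pair (Primrec.fst.comp (Primrec.fst.comp (Primrec.snd.comp Primrec.fst))) hd))
  have hf2 : Primrec fun y : ((List Bool × List Bool) × (ℕ × List ℕ) × ℕ) × ℕ =>
      decide (y.2 / 2 ∈ y.1.2.1.2) :=
    t22_mem.comp hd (Primrec.snd.comp (Primrec.fst.comp (Primrec.snd.comp Primrec.fst)))
  have h2 : Primrec₂ fun (x : (List Bool × List Bool) × (ℕ × List ℕ) × ℕ) (i : ℕ) =>
      if i % 2 = 0 then mX x.1.1 x.1.2 x.2.1.1 (i / 2) else decide (i / 2 ∈ x.2.1.2) :=
    Primrec.ite (Primrec.eq.comp hm (Primrec.const 0)) hf1 hf2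
  exact Primrec.list_map h1 h2

end Pool.Agent.H548R2.Post
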