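import Pool.Agent.H548R2.Post.Defs
import Pool.Agent.H548R2.Post.T21
import Pool.Agent.H548R2.Post.T22

set_option autoImplicit false

namespace Pool.Agent.H548R2.Post

open Encodable Pool.Agent.Helper227
open Nat.Partrec (Code)

theorem t23_pred : PrimrecPred fun x : (List Bool × List Bool) × ℕ × ℕ × ℕ × ℕ =>
    ∃ t < x.2.1 + 1, hlt x.2.1 x.2.2.1 x.2.2.2.1 (pX x.1.1 x.1.2 x.2.2.2.2 t) = true := by
  refine PP.ex_lt (α := (List Bool × List Bool) × ℕ × ℕ × ℕ × ℕ) (f := fun x => x.2.1 + 1)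
    (p := fun x t => hlt x.2.1 x.2.2.1 x.2.2.2.1 (pX x.1.1 x.1.2 x.2.2.2.2 t) = true) ?_ ?_
  · have h1 : Primrec fun y : ((List Bool × List Bool) × ℕ × ℕ × ℕ × ℕ) × ℕ =>
        pX y.1.1.1 y.1.1.2 y.1.2.2.2.2 y.2 :=
      primrec_pX.comp (f := fun z : (List Bool × List Bool) × ℕ × ℕ => pX z.1.1 z.1.2 z.2.1 z.2.2)
        (g := fun y : ((List Bool × List Bool) × ℕ × ℕ × ℕ × ℕ) × ℕ =>
          (y.1.1, (y.1.2.2.2.2, y.2)))
        ((Primrec.fst.comp Primrec.fst).pair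
          ((Primrec.snd.comp (Primrec.snd.comp (Primrec.snd.comp
            (Primrec.snd.comp Primrec.fst)))).pair Primrec.snd))
    have h2 : Primrec fun y : ((List Bool × List Bool) × ℕ × ℕ × ℕ × ℕ) × ℕ =>
        hlt y.1.2.1 y.1.2.2.1 y.1.2.2.2.1 (pX y.1.1.1 y.1.1.2 y.1.2.2.2.2 y.2) :=
      primrec_hlt.comp (f := fun x : ℕ × ℕ × ℕ × List Bool => hlt x.1 x.2.1 x.2.2.1 x.2.2.2)
        (g := fun y : ((List Bool × List Bool) × ℕ × ℕ × ℕ × ℕ) × ℕ =>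
          (y.1.2.1, (y.1.2.2.1, (y.1.2.2.2.1, pX y.1.1.1 y.1.1.2 y.1.2.2.2.2 y.2))))
        ((Primrec.fst.comp (Primrec.snd.comp Primrec.fst)).pair
          ((Primrec.fst.comp (Primrec.snd.comp (Primrec.snd.comp Primrec.fst))).pair
            ((Primrec.fst.comp (Primrec.snd.comp (Primrec.snd.comp
              (Primrec.snd.comp Primrec.fst)))).pair h1)))
    exact Primrec.primrecPred
      (p := fun y : ((List Bool × List Bool) × ℕ × ℕ × ℕ × ℕ) × ℕ =>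
        hlt y.1.2.1 y.1.2.2.1 y.1.2.2.2.1 (pX y.1.1.1 y.1.1.2 y.1.2.2.2.2 y.2) = true)
      (h2.of_eq (fun y => by simp))
  · exact Primrec.succ.comp (Primrec.fst.comp Primrec.snd)

theorem primrec_enB : Primrec fun x : (List Bool × List Bool) × ℕ × ℕ × ℕ × ℕ =>
    enB x.2.1 x.2.2.1 x.2.2.2.1 x.1.1 x.1.2 x.2.2.2.2 := by
  classical
  refine (PrimrecPred.decide t23_pred).of_eq (fun x => ?_)
  rw [enB, Bool.eq_iff_iff]
  simp only [decide_eq_true_eq, List.any_eq_true, List.mem_range]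

end Pool.Agent.H548R2.Post
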