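import Pool.Agent.H548R2.Post.Defs
import Pool.Agent.H548R2.Post.T21
import Pool.Agent.H548R2.Post.T22
set_option autoImplicit false
namespace Pool.Agent.H548R2.Post
open Encodable Pool.Agent.Helper227
open Nat.Partrec (Code)

theorem t24_find (p : ℕ → Bool) (m : ℕ) :
    ((List.range m).find? p).getD 0 =
      if (List.range m).findIdx p < m then (List.range m).findIdx p else 0 := by
  rcases h : (List.range m).find? p with _ | t
  · have h1 : ∀ x ∈ List.range m, p x = false := by
      intro x hx
      have := List.find?_eq_none.1 h x hx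
      simpa using this
    have h2 : (List.range m).findIdx p = (List.range m).length := List.findIdx_eq_length.2 h1
    rw [h2, List.length_range]
    simp
  · obtain ⟨h1, h2, h3⟩ := List.find?_range_eq_some.1 h
    have h2' : t < m := List.mem_range.1 h2
    have h4 : (List.range m).findIdx p = t := by
      rw [List.findIdx_eq (by rw [List.length_range]; exact h2')]
      refine ⟨by rw [List.getElem_range]; exact h1, ?_⟩
      intro j hj
      rw [List.getElem_range]
      have := h3 j hj
      simpa using this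
    rw [h4, if_pos h2']
    rfl

theorem primrec_resB : Primrec fun x : (List Bool × List Bool) × (ℕ × ℕ) × ℕ × List ℕ =>
    resB x.2.1.1 x.2.1.2 x.1.1 x.1.2 x.2.2.1 x.2.2.2 := by
  have hs : Primrec fun x : (List Bool × List Bool) × (ℕ × ℕ) × ℕ × List ℕ => x.2.1.1 :=
    Primrec.fst.comp (Primrec.fst.comp Primrec.snd)
  have hs1 : Primrec fun x : (List Bool × List Bool) × (ℕ × ℕ) × ℕ × List ℕ => x.2.1.1 + 1 :=
    Primrec.succ.comp hs
  have he : Primrec fun x : (List Bool × List Bool) × (ℕ × ℕ) × ℕ × List ℕ => x.2.1.2 :=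
    Primrec.snd.comp (Primrec.fst.comp Primrec.snd)
  have hk : Primrec fun x : (List Bool × List Bool) × (ℕ × ℕ) × ℕ × List ℕ => x.2.2 :=
    Primrec.snd.comp Primrec.snd
  have hp : Primrec₂ fun (x : (List Bool × List Bool) × (ℕ × ℕ) × ℕ × List ℕ) (t : ℕ) =>
      hlt x.2.1.1 x.2.1.2 x.2.1.2 (pJ x.1.1 x.1.2 x.2.2.1 x.2.2.2 t) :=
    primrec_hlt.comp (Primrec.pair (hs.comp Primrec.fst) (Primrec.pair (he.comp Primrec.fst)
      (Primrec.pair (he.comp Primrec.fst) (primrec_pJ.comp (Primrec.pair
        (Primrec.fst.comp Primrec.fst) (Primrec.pair (hk.comp Primrec.fst) Primrec.snd))))))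
  have hi : Primrec fun x : (List Bool × List Bool) × (ℕ × ℕ) × ℕ × List ℕ =>
      (List.range (x.2.1.1 + 1)).findIdx
        (fun t => hlt x.2.1.1 x.2.1.2 x.2.1.2 (pJ x.1.1 x.1.2 x.2.2.1 x.2.2.2 t)) :=
    Primrec.list_findIdx (Primrec.list_range.comp hs1) hp
  refine (Primrec.ite (Primrec.nat_lt.comp hi hs1) hi (Primrec.const 0)).of_eq fun x => ?_
  unfold resB
  exact (t24_find _ _).symm

end Pool.Agent.H548R2.Post
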