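import Pool.Agent.H548R2.Post.Defs
import Pool.Agent.H548R2.Post.T20
import Pool.Agent.H548R2.Post.T23
import Pool.Agent.H548R2.Post.T24

set_option autoImplicit false

namespace Pool.Agent.H548R2.Post

open Encodable Pool.Agent.Helper227
open Nat.Partrec (Code)

/-- The type of the arguments `((d, σ), V), (s, n, k), z`. -/
abbrev T25X : Type := ((List Bool × List Bool) × List (List ℕ)) × (ℕ × ℕ × ℕ) × ℕ

section proj

theorem t25_d : Primrec fun x : T25X => x.1.1.1 :=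
  Primrec.fst.comp (Primrec.fst.comp Primrec.fst)

theorem t25_g : Primrec fun x : T25X => x.1.1.2 :=
  Primrec.snd.comp (Primrec.fst.comp Primrec.fst)

theorem t25_V : Primrec fun x : T25X => x.1.2 :=
  Primrec.snd.comp Primrec.fst

theorem t25_s : Primrec fun x : T25X => x.2.1.1 :=
  Primrec.fst.comp (Primrec.fst.comp Primrec.snd)

theorem t25_n : Primrec fun x : T25X => x.2.1.2.1 :=
  Primrec.fst.comp (Primrec.snd.comp (Primrec.fst.comp Primrec.snd))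

theorem t25_k : Primrec fun x : T25X => x.2.1.2.2 :=
  Primrec.snd.comp (Primrec.snd.comp (Primrec.fst.comp Primrec.snd))

theorem t25_z : Primrec fun x : T25X => x.2.2 :=
  Primrec.snd.comp Primrec.snd

end proj

/-- the class function -/
theorem t25_cl : Primrec fun y : T25X × ℕ => cl y.1.2.1.2.1 y.1.2.1.2.2 y.2 :=
  primrec_cl.comp (f := fun x : ℕ × ℕ × ℕ => cl x.1 x.2.1 x.2.2)
    (g := fun y : T25X × ℕ => (y.1.2.1.2.1, (y.1.2.1.2.2, y.2)))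
    ((t25_n.comp Primrec.fst).pair ((t25_k.comp Primrec.fst).pair Primrec.snd))

/-- the list of the class -/
theorem t25_Vc : Primrec fun y : T25X × ℕ => y.1.1.2.getD (cl y.1.2.1.2.1 y.1.2.1.2.2 y.2) [] :=
  (Primrec.list_getD ([] : List ℕ)).comp (t25_V.comp Primrec.fst) t25_cl

/-- part one -/
theorem t25_p1 : PrimrecPred fun x : T25X => 4 ^ (x.2.1.2.1 + 1) ≤ x.2.2 :=
  Primrec.nat_le.comp (primrec_pow.comp (Primrec.const 4) (Primrec.succ.comp t25_n)) t25_z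

/-- the restraint inequality -/
theorem t25_res : PrimrecPred fun y : (T25X × ℕ) × ℕ =>
    resB y.1.1.2.1.1 y.1.2 y.1.1.1.1.1 y.1.1.1.1.2 (cl y.1.1.2.1.2.1 y.1.1.2.1.2.2 y.2)
      (y.1.1.1.2.getD (cl y.1.1.2.1.2.1 y.1.1.2.1.2.2 y.2) []) ≤ y.1.1.2.2 := by
  have hcl : Primrec fun y : (T25X × ℕ) × ℕ => cl y.1.1.2.1.2.1 y.1.1.2.1.2.2 y.2 :=
    t25_cl.comp (f := fun y : T25X × ℕ => cl y.1.2.1.2.1 y.1.2.1.2.2 y.2)
      (g := fun y : (T25X × ℕ) × ℕ => (y.1.1, y.2))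
      ((Primrec.fst.comp Primrec.fst).pair Primrec.snd)
  have hV : Primrec fun y : (T25X × ℕ) × ℕ =>
      y.1.1.1.2.getD (cl y.1.1.2.1.2.1 y.1.1.2.1.2.2 y.2) [] :=
    t25_Vc.comp (f := fun y : T25X × ℕ => y.1.1.2.getD (cl y.1.2.1.2.1 y.1.2.1.2.2 y.2) [])
      (g := fun y : (T25X × ℕ) × ℕ => (y.1.1, y.2))
      ((Primrec.fst.comp Primrec.fst).pair Primrec.snd)
  have hX : Primrec fun y : (T25X × ℕ) × ℕ => y.1.1 := Primrec.fst.comp Primrec.fst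
  have hr : Primrec fun y : (T25X × ℕ) × ℕ =>
      resB y.1.1.2.1.1 y.1.2 y.1.1.1.1.1 y.1.1.1.1.2 (cl y.1.1.2.1.2.1 y.1.1.2.1.2.2 y.2)
        (y.1.1.1.2.getD (cl y.1.1.2.1.2.1 y.1.1.2.1.2.2 y.2) []) :=
    primrec_resB.comp
      (f := fun x : (List Bool × List Bool) × (ℕ × ℕ) × ℕ × List ℕ =>
        resB x.2.1.1 x.2.1.2 x.1.1 x.1.2 x.2.2.1 x.2.2.2)
      (g := fun y : (T25X × ℕ) × ℕ =>
        ((y.1.1.1.1.1, y.1.1.1.1.2), ((y.1.1.2.1.1, y.1.2),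
          (cl y.1.1.2.1.2.1 y.1.1.2.1.2.2 y.2,
            y.1.1.1.2.getD (cl y.1.1.2.1.2.1 y.1.1.2.1.2.2 y.2) []))))
      (((t25_d.comp hX).pair (t25_g.comp hX)).pair
        (((t25_s.comp hX).pair (Primrec.snd.comp Primrec.fst)).pair (hcl.pair hV)))
  exact Primrec.nat_le.comp hr (t25_z.comp hX)

/-- part two -/
theorem t25_p2 : PrimrecPred fun x : T25X =>
    ∀ e < x.2.1.2.1, ∀ j < 2 ^ x.2.1.2.1,
      resB x.2.1.1 e x.1.1.1 x.1.1.2 (cl x.2.1.2.1 x.2.1.2.2 j)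
        (x.1.2.getD (cl x.2.1.2.1 x.2.1.2.2 j) []) ≤ x.2.2 := by
  refine PP.all_lt (α := T25X) (f := fun x => x.2.1.2.1)
    (p := fun x e => ∀ j < 2 ^ x.2.1.2.1,
      resB x.2.1.1 e x.1.1.1 x.1.1.2 (cl x.2.1.2.1 x.2.1.2.2 j)
        (x.1.2.getD (cl x.2.1.2.1 x.2.1.2.2 j) []) ≤ x.2.2) ?_ t25_n
  refine PP.all_lt (α := T25X × ℕ) (f := fun y => 2 ^ y.1.2.1.2.1)
    (p := fun y j => resB y.1.2.1.1 y.2 y.1.1.1.1 y.1.1.1.2 (cl y.1.2.1.2.1 y.1.2.1.2.2 j)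
        (y.1.1.2.getD (cl y.1.2.1.2.1 y.1.2.1.2.2 j) []) ≤ y.1.2.2) t25_res ?_
  exact primrec_pow.comp (Primrec.const 2) (t25_n.comp Primrec.fst)

/-- enumeration of `z` -/
theorem t25_en : Primrec fun y : T25X × ℕ =>
    enB y.1.2.1.1 y.1.2.1.2.1 y.1.2.2 y.1.1.1.1 y.1.1.1.2 (cl y.1.2.1.2.1 y.1.2.1.2.2 y.2) :=
  primrec_enB.comp
    (f := fun x : (List Bool × List Bool) × ℕ × ℕ × ℕ × ℕ =>
      enB x.2.1 x.2.2.1 x.2.2.2.1 x.1.1 x.1.2 x.2.2.2.2)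
    (g := fun y : T25X × ℕ =>
      ((y.1.1.1.1, y.1.1.1.2), (y.1.2.1.1, (y.1.2.1.2.1, (y.1.2.2,
        cl y.1.2.1.2.1 y.1.2.1.2.2 y.2)))))
    (((t25_d.comp Primrec.fst).pair (t25_g.comp Primrec.fst)).pair
      ((t25_s.comp Primrec.fst).pair ((t25_n.comp Primrec.fst).pair
        ((t25_z.comp Primrec.fst).pair t25_cl))))

/-- enumeration of a member `w` -/
theorem t25_en' : PrimrecPred fun y : (T25X × ℕ) × ℕ =>
    enB y.1.1.2.1.1 y.1.1.2.1.2.1 y.2 y.1.1.1.1.1 y.1.1.1.1.2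
      (cl y.1.1.2.1.2.1 y.1.1.2.1.2.2 y.1.2) = false := by
  have h : Primrec fun y : (T25X × ℕ) × ℕ =>
      enB y.1.1.2.1.1 y.1.1.2.1.2.1 y.2 y.1.1.1.1.1 y.1.1.1.1.2
        (cl y.1.1.2.1.2.1 y.1.1.2.1.2.2 y.1.2) :=
    primrec_enB.comp
      (f := fun x : (List Bool × List Bool) × ℕ × ℕ × ℕ × ℕ =>
        enB x.2.1 x.2.2.1 x.2.2.2.1 x.1.1 x.1.2 x.2.2.2.2)
      (g := fun y : (T25X × ℕ) × ℕ =>
        ((y.1.1.1.1.1, y.1.1.1.1.2), (y.1.1.2.1.1, (y.1.1.2.1.2.1, (y.2,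
          cl y.1.1.2.1.2.1 y.1.1.2.1.2.2 y.1.2)))))
      (((t25_d.comp (Primrec.fst.comp Primrec.fst)).pair
          (t25_g.comp (Primrec.fst.comp Primrec.fst))).pair
        ((t25_s.comp (Primrec.fst.comp Primrec.fst)).pair
          ((t25_n.comp (Primrec.fst.comp Primrec.fst)).pair
            (Primrec.snd.pair (t25_cl.comp Primrec.fst)))))
  exact Primrec.primrecPred
    (p := fun y : (T25X × ℕ) × ℕ =>
      enB y.1.1.2.1.1 y.1.1.2.1.2.1 y.2 y.1.1.1.1.1 y.1.1.1.1.2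
        (cl y.1.1.2.1.2.1 y.1.1.2.1.2.2 y.1.2) = false)
    ((Primrec.not.comp h).of_eq (fun y => by
      cases enB y.1.1.2.1.1 y.1.1.2.1.2.1 y.2 y.1.1.1.1.1 y.1.1.1.1.2
        (cl y.1.1.2.1.2.1 y.1.1.2.1.2.2 y.1.2) <;> simp))

/-- part three -/
theorem t25_p3 : PrimrecPred fun x : T25X =>
    ∃ j < 2 ^ x.2.1.2.1,
      enB x.2.1.1 x.2.1.2.1 x.2.2 x.1.1.1 x.1.1.2 (cl x.2.1.2.1 x.2.1.2.2 j) = true ∧
      ∀ y ∈ x.1.2.getD (cl x.2.1.2.1 x.2.1.2.2 j) [],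
        enB x.2.1.1 x.2.1.2.1 y x.1.1.1 x.1.1.2 (cl x.2.1.2.1 x.2.1.2.2 j) = false := by
  refine PP.ex_lt (α := T25X) (f := fun x => 2 ^ x.2.1.2.1)
    (p := fun x j =>
      enB x.2.1.1 x.2.1.2.1 x.2.2 x.1.1.1 x.1.1.2 (cl x.2.1.2.1 x.2.1.2.2 j) = true ∧
      ∀ y ∈ x.1.2.getD (cl x.2.1.2.1 x.2.1.2.2 j) [],
        enB x.2.1.1 x.2.1.2.1 y x.1.1.1 x.1.1.2 (cl x.2.1.2.1 x.2.1.2.2 j) = false) ?_
    (primrec_pow.comp (Primrec.const 2) t25_n)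
  have h1 : PrimrecPred fun y : T25X × ℕ =>
      enB y.1.2.1.1 y.1.2.1.2.1 y.1.2.2 y.1.1.1.1 y.1.1.1.2
        (cl y.1.2.1.2.1 y.1.2.1.2.2 y.2) = true :=
    Primrec.primrecPred
      (p := fun y : T25X × ℕ => enB y.1.2.1.1 y.1.2.1.2.1 y.1.2.2 y.1.1.1.1 y.1.1.1.2
        (cl y.1.2.1.2.1 y.1.2.1.2.2 y.2) = true)
      (t25_en.of_eq (fun y => by simp))
  have h2 : PrimrecPred fun y : T25X × ℕ =>
      ∀ w ∈ y.1.1.2.getD (cl y.1.2.1.2.1 y.1.2.1.2.2 y.2) [],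
        enB y.1.2.1.1 y.1.2.1.2.1 w y.1.1.1.1 y.1.1.1.2
          (cl y.1.2.1.2.1 y.1.2.1.2.2 y.2) = false :=
    PP.all_mem (α := T25X × ℕ)
      (f := fun y => y.1.1.2.getD (cl y.1.2.1.2.1 y.1.2.1.2.2 y.2) [])
      (p := fun y w => enB y.1.2.1.1 y.1.2.1.2.1 w y.1.1.1.1 y.1.1.1.2
          (cl y.1.2.1.2.1 y.1.2.1.2.2 y.2) = false) t25_en' t25_Vc
  exact PrimrecPred.and h1 h2

theorem primrec_goodB : Primrec fun x : ((List Bool × List Bool) × List (List ℕ)) ×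
    (ℕ × ℕ × ℕ) × ℕ =>
    goodB x.1.1.1 x.1.1.2 x.1.2 x.2.1.1 x.2.1.2.1 x.2.1.2.2 x.2.2 := by
  classical
  refine (PrimrecPred.decide ((t25_p1.and t25_p2).and t25_p3)).of_eq (fun x => ?_)
  rw [goodB, Bool.eq_iff_iff]
  simp only [decide_eq_true_eq, List.any_eq_true, List.all_eq_true, List.mem_range,
    Bool.and_eq_true, Bool.not_eq_true']

end Pool.Agent.H548R2.Post
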