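import Pool.Agent.H548R2.Post.T25
set_option autoImplicit false
namespace Pool.Agent.H548R2.Post
open Encodable Pool.Agent.Helper227
open Nat.Partrec (Code)

theorem t26_find_range (p : ℕ → Bool) (s : ℕ) : (List.range s).find? p =
    if (List.range s).findIdx p < s then some ((List.range s).findIdx p) else none := by
  split_ifs with h
  · have h' : (List.range s).findIdx p < (List.range s).length := by simpa using h
    have h1 := List.findIdx_getElem (w := h')
    rw [List.getElem_range] at h1
    rw [List.find?_range_eq_some]
    refine ⟨h1, List.mem_range.mpr h, ?_⟩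
    intro j hj
    have h2 := List.not_of_lt_findIdx hj
    rw [List.getElem_range] at h2
    simpa using h2
  · rw [List.find?_range_eq_none]
    intro i hi
    have h1 : (List.range s).findIdx p = (List.range s).length := by
      have := List.findIdx_le_length (p := p) (xs := List.range s)
      rw [List.length_range] at this ⊢
      omega
    rw [List.findIdx_eq_length] at h1
    have := h1 i (List.mem_range.mpr hi)
    simpa using this

theorem t26_find {α : Type*} [Primcodable α] {f : α → ℕ} {p : α → ℕ → Bool} (hf : Primrec f)
    (hp : Primrec₂ p) : Primrec fun a => (List.range (f a)).find? (p a) := by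
  have h1 : Primrec fun a => (List.range (f a)).findIdx (p a) :=
    Primrec.list_findIdx (Primrec.list_range.comp hf) hp
  have h2 : Primrec fun a => if (List.range (f a)).findIdx (p a) < f a then
      some ((List.range (f a)).findIdx (p a)) else none :=
    Primrec.ite (Primrec.nat_lt.comp h1 hf) (Primrec.option_some.comp h1) (Primrec.const none)
  exact h2.of_eq fun a => (t26_find_range (p a) (f a)).symm

theorem primrec_actB : Primrec fun x : ((List Bool × List Bool) × List (List ℕ)) × ℕ × ℕ × ℕ =>
    actB x.1.1.1 x.1.1.2 x.1.2 x.2.1 x.2.2.1 x.2.2.2 := by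
  have hm : Primrec fun y : (((List Bool × List Bool) × List (List ℕ)) × ℕ × ℕ × ℕ) × ℕ =>
      (y.1.1, y.1.2, y.2) :=
    Primrec.pair (Primrec.fst.comp Primrec.fst)
      (Primrec.pair (Primrec.snd.comp Primrec.fst) Primrec.snd)
  have hp : Primrec₂ fun (x : ((List Bool × List Bool) × List (List ℕ)) × ℕ × ℕ × ℕ) (z : ℕ) =>
      goodB x.1.1.1 x.1.1.2 x.1.2 x.2.1 x.2.2.1 x.2.2.2 z := primrec_goodB.comp hm
  exact t26_find (Primrec.fst.comp Primrec.snd) hp

end Pool.Agent.H548R2.Post
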