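import Pool.Agent.H548R2.Post.Defs
import Pool.Agent.H548R2.Post.T20
import Pool.Agent.H548R2.Post.T26
set_option autoImplicit false
namespace Pool.Agent.H548R2.Post
open Encodable Pool.Agent.Helper227
open Nat.Partrec (Code)

theorem primrec_stepB : Primrec fun x : ((List Bool × List Bool) × List (List ℕ)) × ℕ =>
    stepB x.1.1.1 x.1.1.2 x.1.2 x.2 := by
  unfold stepB
  refine Primrec.list_map
    (f := fun x : ((List Bool × List Bool) × List (List ℕ)) × ℕ =>
      List.range (2 ^ x.1.1.2.length))
    (g := fun (x : ((List Bool × List Bool) × List (List ℕ)) × ℕ) (k : ℕ) =>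
      x.1.2.getD k [] ++ (List.range x.2).filterMap
        (fun n => actB x.1.1.1 x.1.1.2 x.1.2 x.2 n k)) ?_ ?_
  · exact Primrec.list_range.comp (primrec_pow.comp (Primrec.const 2)
      (Primrec.list_length.comp (Primrec.snd.comp (Primrec.fst.comp Primrec.fst))))
  · refine Primrec.list_append.comp
      (g := fun p : (((List Bool × List Bool) × List (List ℕ)) × ℕ) × ℕ => p.1.1.2.getD p.2 [])
      (h := fun p : (((List Bool × List Bool) × List (List ℕ)) × ℕ) × ℕ =>
        (List.range p.1.2).filterMap
          (fun n => actB p.1.1.1.1 p.1.1.1.2 p.1.1.2 p.1.2 n p.2)) ?_ ?_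
    · exact (Primrec.list_getD []).comp
        (Primrec.snd.comp (Primrec.fst.comp Primrec.fst)) Primrec.snd
    · refine Primrec.listFilterMap
        (f := fun p : (((List Bool × List Bool) × List (List ℕ)) × ℕ) × ℕ => List.range p.1.2)
        (g := fun (p : (((List Bool × List Bool) × List (List ℕ)) × ℕ) × ℕ) (n : ℕ) =>
          actB p.1.1.1.1 p.1.1.1.2 p.1.1.2 p.1.2 n p.2) ?_ ?_
      · exact Primrec.list_range.comp (Primrec.snd.comp Primrec.fst)
      · have h1 : Primrec fun q : ((((List Bool × List Bool) × List (List ℕ)) × ℕ) × ℕ) × ℕ =>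
            (q.1.1.1, q.1.1.2, q.2, q.1.2) :=
          Primrec.pair (Primrec.fst.comp (Primrec.fst.comp Primrec.fst))
            (Primrec.pair (Primrec.snd.comp (Primrec.fst.comp Primrec.fst))
              (Primrec.pair Primrec.snd (Primrec.snd.comp Primrec.fst)))
        have h2 := primrec_actB.comp h1
        exact h2

end Pool.Agent.H548R2.Post
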