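import Pool.Agent.H548R2.Post.Defs
import Pool.Agent.H548R2.Post.T27
set_option autoImplicit false
namespace Pool.Agent.H548R2.Post
open Encodable Pool.Agent.Helper227
open Nat.Partrec (Code)

theorem primrec_tabB : Primrec fun x : (List Bool × List Bool) × ℕ => tabB x.1.1 x.1.2 x.2 := by
  have hstep : Primrec₂ fun (x : (List Bool × List Bool) × ℕ) (y : ℕ × List (List ℕ)) =>
      stepB x.1.1 x.1.2 y.2 y.1 := by
    have h1 : Primrec fun z : ((List Bool × List Bool) × ℕ) × (ℕ × List (List ℕ)) =>
        ((z.1.1, z.2.2), z.2.1) :=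
      Primrec.pair (Primrec.pair (Primrec.fst.comp Primrec.fst) (Primrec.snd.comp Primrec.snd))
        (Primrec.fst.comp Primrec.snd)
    exact primrec_stepB.comp h1
  have h := Primrec.nat_rec' (f := fun x : (List Bool × List Bool) × ℕ => x.2)
    (g := fun _ => ([] : List (List ℕ))) Primrec.snd (Primrec.const []) hstep
  refine h.of_eq ?_
  rintro ⟨⟨d, σ⟩, s⟩
  induction s with
  | zero => rfl
  | succ s ih =>
    change stepB d σ _ s = stepB d σ (tabB d σ s) s
    rw [← ih]

end Pool.Agent.H548R2.Post
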