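import Pool.Agent.H548R2.Post.Defs
import Pool.Agent.H548R2.Post.T21
import Pool.Agent.H548R2.Post.T22
set_option autoImplicit false
namespace Pool.Agent.H548R2.Post
open Encodable Pool.Agent.Helper227
open Nat.Partrec (Code)

theorem t29_pre (σ : List Bool) (a : List ℕ) (t : ℕ) :
    pre (jn (ext σ) a) t = pJ [] σ 0 a t := by
  unfold pre pJ
  refine List.map_congr_left fun i _ => ?_
  unfold jn ext mX
  split_ifs <;> simp

theorem t29_iff (s e z : ℕ) (σ : List Bool) (a : List ℕ) :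
    (∃ t < s + 1, hlt s e z (pJ [] σ 0 a t) = true) ↔ En s e z (jn (ext σ) a) := by
  unfold En
  simp only [t29_pre, Nat.lt_succ_iff]

theorem primrec_En : PrimrecPred fun x : (ℕ × ℕ × ℕ) × List Bool × List ℕ =>
    En x.1.1 x.1.2.1 x.1.2.2 (jn (ext x.2.1) x.2.2) := by
  have h1 : Primrec fun y : ((ℕ × ℕ × ℕ) × List Bool × List ℕ) × ℕ =>
      pJ [] y.1.2.1 0 y.1.2.2 y.2 := by
    have h := primrec_pJ.comp (f := fun x : (List Bool × List Bool) × (ℕ × List ℕ) × ℕ =>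
      pJ x.1.1 x.1.2 x.2.1.1 x.2.1.2 x.2.2)
      (g := fun y : ((ℕ × ℕ × ℕ) × List Bool × List ℕ) × ℕ =>
        (((([] : List Bool), y.1.2.1), ((0 : ℕ), y.1.2.2), y.2) :
          (List Bool × List Bool) × (ℕ × List ℕ) × ℕ))
      (((Primrec.const ([] : List Bool)).pair
        (Primrec.fst.comp (Primrec.snd.comp Primrec.fst))).pair
        (((Primrec.const (0 : ℕ)).pair (Primrec.snd.comp (Primrec.snd.comp Primrec.fst))).pair
          Primrec.snd))
    exact h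
  have h2 : Primrec fun y : ((ℕ × ℕ × ℕ) × List Bool × List ℕ) × ℕ =>
      hlt y.1.1.1 y.1.1.2.1 y.1.1.2.2 (pJ [] y.1.2.1 0 y.1.2.2 y.2) := by
    have h := primrec_hlt.comp (f := fun x : ℕ × ℕ × ℕ × List Bool =>
        hlt x.1 x.2.1 x.2.2.1 x.2.2.2)
      (g := fun y : ((ℕ × ℕ × ℕ) × List Bool × List ℕ) × ℕ =>
        ((y.1.1.1, y.1.1.2.1, y.1.1.2.2, pJ [] y.1.2.1 0 y.1.2.2 y.2) :
          ℕ × ℕ × ℕ × List Bool))
      ((Primrec.fst.comp (Primrec.fst.comp Primrec.fst)).pair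
        ((Primrec.fst.comp (Primrec.snd.comp (Primrec.fst.comp Primrec.fst))).pair
          ((Primrec.snd.comp (Primrec.snd.comp (Primrec.fst.comp Primrec.fst))).pair h1)))
    exact h
  have h3 : PrimrecRel fun (x : (ℕ × ℕ × ℕ) × List Bool × List ℕ) (t : ℕ) =>
      hlt x.1.1 x.1.2.1 x.1.2.2 (pJ [] x.2.1 0 x.2.2 t) = true :=
    Primrec.eq.comp h2 (Primrec.const true)
  exact (PP.ex_lt (f := fun x : (ℕ × ℕ × ℕ) × List Bool × List ℕ => x.1.1 + 1) h3
    (Primrec.succ.comp (Primrec.fst.comp Primrec.fst))).of_eq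
    (fun x => t29_iff _ _ _ _ _)

end Pool.Agent.H548R2.Post
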