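import Pool.Agent.H548R2.Post.Defs
set_option autoImplicit false
namespace Pool.Agent.H548R2.Post
open Encodable Pool.Agent.Helper227
open Nat.Partrec (Code)

theorem t31_find {α : Type} {p q : α → Bool} :
    ∀ {l : List α}, (∀ x ∈ l, p x = q x) → l.find? p = l.find? q := by
  intro l
  induction l with
  | nil => intro _; rfl
  | cons a l ih =>
    intro h
    rw [List.find?_cons, List.find?_cons, h a List.mem_cons_self,
      ih (fun x hx => h x (List.mem_cons_of_mem _ hx))]

theorem t31_dtab {D : ℕ → ℕ → Bool} {N k i : ℕ} (h : Nat.pair k i < N) :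
    (dtab D N).getD (Nat.pair k i) false = D k i := by
  unfold dtab
  rw [List.getD_eq_getElem _ _ (by simpa using h)]
  simp

theorem mX_eq {D : ℕ → ℕ → Bool} {N : ℕ} {σ : List Bool} {k i : ℕ} (h : Nat.pair k i < N) :
    mX (dtab D N) σ k i = sh D k (ext σ) i := by
  unfold mX sh ext
  rw [t31_dtab h]

theorem t31_pX {D : ℕ → ℕ → Bool} {N : ℕ} {σ : List Bool} {s k t : ℕ}
    (h : ∀ i < s, Nat.pair k i < N) (ht : t ≤ s) :
    pX (dtab D N) σ k t = pre (sh D k (ext σ)) t := by
  unfold pX pre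
  refine List.map_congr_left fun i hi => ?_
  rw [List.mem_range] at hi
  exact mX_eq (h i (by omega))

theorem t31_pJ {D : ℕ → ℕ → Bool} {N : ℕ} {σ : List Bool} {s k t : ℕ} {a : List ℕ}
    (h : ∀ i < s, Nat.pair k i < N) (ht : t ≤ s) :
    pJ (dtab D N) σ k a t = pre (jn (sh D k (ext σ)) a) t := by
  unfold pJ pre jn
  refine List.map_congr_left fun i hi => ?_
  rw [List.mem_range] at hi
  by_cases h2 : i % 2 = 0
  · rw [if_pos h2, if_pos h2]
    exact mX_eq (h _ (by omega))
  · rw [if_neg h2, if_neg h2]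

theorem enB_iff {D : ℕ → ℕ → Bool} {N : ℕ} {σ : List Bool} {s n z k : ℕ}
    (h : ∀ i < s, Nat.pair k i < N) :
    enB s n z (dtab D N) σ k = true ↔ En s n z (sh D k (ext σ)) := by
  unfold enB En
  rw [List.any_eq_true]
  constructor
  · rintro ⟨t, ht, h1⟩
    rw [List.mem_range] at ht
    refine ⟨t, by omega, ?_⟩
    rwa [t31_pX h (by omega)] at h1
  · rintro ⟨t, ht, h1⟩
    refine ⟨t, List.mem_range.2 (by omega), ?_⟩
    rwa [t31_pX h ht]

theorem resB_eq {D : ℕ → ℕ → Bool} {N : ℕ} {σ : List Bool} {s e k : ℕ} {a : List ℕ}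
    (h : ∀ i < s, Nat.pair k i < N) :
    resB s e (dtab D N) σ k a = res s e (jn (sh D k (ext σ)) a) := by
  unfold resB res
  rw [t31_find (p := fun t => hlt s e e (pJ (dtab D N) σ k a t))
    (q := fun t => hlt s e e (pre (jn (sh D k (ext σ)) a) t))]
  intro t ht
  rw [List.mem_range] at ht
  rw [t31_pJ h (by omega)]

end Pool.Agent.H548R2.Post
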