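import Pool.Agent.H548R2.Post.Defs

set_option autoImplicit false

namespace Pool.Agent.H548R2.Post

open Encodable Pool.Agent.Helper227
open Nat.Partrec (Code)

theorem t32_div (n j k : ℕ) (hj : j < 2 ^ n) : (j ^^^ k) / 2 ^ n = k / 2 ^ n := by
  rw [← Nat.shiftRight_eq_div_pow, ← Nat.shiftRight_eq_div_pow, Nat.shiftRight_xor_distrib,
    Nat.shiftRight_eq_div_pow j, Nat.div_eq_of_lt hj, Nat.zero_xor]

theorem t32_a (n k j : ℕ) (hj : j < 2 ^ n) : ∃ i < 2 ^ n, cl n k j = i ^^^ k := by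
  refine ⟨cl n k j ^^^ k, ?_, by rw [Nat.xor_assoc, Nat.xor_self, Nat.xor_zero]⟩
  have h1 : cl n k j / 2 ^ n = k / 2 ^ n := by
    unfold cl
    rw [Nat.mul_add_div (by positivity), Nat.div_eq_of_lt hj, Nat.add_zero]
  have h2 : (cl n k j ^^^ k) / 2 ^ n = 0 := by
    rw [← Nat.shiftRight_eq_div_pow, Nat.shiftRight_xor_distrib, Nat.shiftRight_eq_div_pow,
      Nat.shiftRight_eq_div_pow, h1, Nat.xor_self]
  exact (Nat.div_eq_zero_iff_lt (by positivity)).1 h2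

theorem t32_b (n k j : ℕ) (hj : j < 2 ^ n) : ∃ i < 2 ^ n, j ^^^ k = cl n k i := by
  refine ⟨(j ^^^ k) % 2 ^ n, Nat.mod_lt _ (by positivity), ?_⟩
  unfold cl
  rw [← t32_div n j k hj]
  exact (Nat.div_add_mod _ _).symm

theorem class_forall (n k : ℕ) (P : ℕ → Prop) :
    (∀ j < 2 ^ n, P (cl n k j)) ↔ ∀ j < 2 ^ n, P (j ^^^ k) := by
  constructor
  · intro h j hj
    obtain ⟨i, hi, e⟩ := t32_b n k j hj
    rw [e]
    exact h i hi
  · intro h j hj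
    obtain ⟨i, hi, e⟩ := t32_a n k j hj
    rw [e]
    exact h i hi

theorem class_exists (n k : ℕ) (P : ℕ → Prop) :
    (∃ j < 2 ^ n, P (cl n k j)) ↔ ∃ j < 2 ^ n, P (j ^^^ k) := by
  constructor
  · rintro ⟨j, hj, h⟩
    obtain ⟨i, hi, e⟩ := t32_a n k j hj
    exact ⟨i, hi, e ▸ h⟩
  · rintro ⟨j, hj, h⟩
    obtain ⟨i, hi, e⟩ := t32_b n k j hj
    exact ⟨i, hi, e ▸ h⟩

theorem cl_lt {n L k j : ℕ} (hn : n ≤ L) (hk : k < 2 ^ L) (hj : j < 2 ^ n) :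
    cl n k j < 2 ^ L := by
  unfold cl
  have e : 2 ^ L = 2 ^ n * 2 ^ (L - n) := by rw [← pow_add]; congr 1; omega
  have h1 : k / 2 ^ n < 2 ^ (L - n) := by
    apply Nat.div_lt_of_lt_mul
    rwa [← e]
  calc 2 ^ n * (k / 2 ^ n) + j < 2 ^ n * (k / 2 ^ n) + 2 ^ n := by omega
    _ = 2 ^ n * (k / 2 ^ n + 1) := by ring
    _ ≤ 2 ^ n * 2 ^ (L - n) := Nat.mul_le_mul_left _ h1
    _ = 2 ^ L := e.symm

end Pool.Agent.H548R2.Post
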