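import Pool.Agent.H548R2.Post.Defs
import Pool.Agent.H548R2.Post.T05
import Pool.Agent.H548R2.Post.T31
import Pool.Agent.H548R2.Post.T32
set_option autoImplicit false
namespace Pool.Agent.H548R2.Post
open Encodable Pool.Agent.Helper227
open Nat.Partrec (Code)

theorem goodB_iff {D : ℕ → ℕ → Bool} (hD : IsGrp D) {N s n k z : ℕ} {σ : List Bool}
    {V : List (List ℕ)} (hs : s ≤ σ.length) (hn : n ≤ σ.length) (hk : k < 2 ^ σ.length)
    (hN : ∀ k < 2 ^ σ.length, ∀ i < s, Nat.pair k i < N)
    (hV : ∀ k < 2 ^ σ.length, V.getD k [] = A D s (sh D k (ext σ))) :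
    goodB (dtab D N) σ V s n k z = true ↔ Good D (A D s) s n (sh D k (ext σ)) z := by
  have hcl : ∀ j < 2 ^ n, cl n k j < 2 ^ σ.length := fun j hj => cl_lt hn hk hj
  have h1 : ∀ e, (∀ j < 2 ^ n, resB s e (dtab D N) σ (cl n k j) (V.getD (cl n k j) []) ≤ z) ↔
      ∀ j < 2 ^ n, res s e (jn (sh D j (sh D k (ext σ))) (A D s (sh D j (sh D k (ext σ))))) ≤ z := by
    intro e
    have h2 := class_forall n k
      (fun m => res s e (jn (sh D m (ext σ)) (A D s (sh D m (ext σ)))) ≤ z)
    have h3 : (∀ j < 2 ^ n, resB s e (dtab D N) σ (cl n k j) (V.getD (cl n k j) []) ≤ z) ↔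
        ∀ j < 2 ^ n, res s e (jn (sh D (cl n k j) (ext σ))
          (A D s (sh D (cl n k j) (ext σ)))) ≤ z := by
      refine forall_congr' fun j => forall_congr' fun hj => ?_
      rw [resB_eq (hN _ (hcl j hj)), hV _ (hcl j hj)]
    rw [h3, h2]
    refine forall_congr' fun j => forall_congr' fun hj => ?_
    rw [sh_sh hD]
  have h4 : (∃ j < 2 ^ n, enB s n z (dtab D N) σ (cl n k j) = true ∧
        ∀ y ∈ V.getD (cl n k j) [], ¬ enB s n y (dtab D N) σ (cl n k j) = true) ↔
      ∃ j < 2 ^ n, En s n z (sh D j (sh D k (ext σ))) ∧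
        ∀ y ∈ A D s (sh D j (sh D k (ext σ))), ¬ En s n y (sh D j (sh D k (ext σ))) := by
    have h2 := class_exists n k (fun m => En s n z (sh D m (ext σ)) ∧
        ∀ y ∈ A D s (sh D m (ext σ)), ¬ En s n y (sh D m (ext σ)))
    have h3 : (∃ j < 2 ^ n, enB s n z (dtab D N) σ (cl n k j) = true ∧
        ∀ y ∈ V.getD (cl n k j) [], ¬ enB s n y (dtab D N) σ (cl n k j) = true) ↔
        ∃ j < 2 ^ n, En s n z (sh D (cl n k j) (ext σ)) ∧
          ∀ y ∈ A D s (sh D (cl n k j) (ext σ)), ¬ En s n y (sh D (cl n k j) (ext σ)) := by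
      refine exists_congr fun j => and_congr_right fun hj => ?_
      rw [enB_iff (hN _ (hcl j hj)), hV _ (hcl j hj)]
      refine and_congr_right fun _ => ?_
      refine forall_congr' fun y => forall_congr' fun _ => ?_
      rw [enB_iff (hN _ (hcl j hj))]
    rw [h3, h2]
    refine exists_congr fun j => and_congr_right fun hj => ?_
    rw [sh_sh hD]
  unfold goodB Good
  rw [Bool.and_eq_true, Bool.and_eq_true, decide_eq_true_iff, List.all_eq_true, List.any_eq_true,
    and_assoc, ← h4]
  refine and_congr_right fun _ => and_congr ?_ ?_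
  · constructor
    · intro h e he
      rw [← h1]
      have h5 := h e (List.mem_range.2 he)
      rw [List.all_eq_true] at h5
      intro j hj
      exact decide_eq_true_iff.1 (h5 j (List.mem_range.2 hj))
    · intro h e he
      have h5 := (h1 e).2 (h e (List.mem_range.1 he))
      rw [List.all_eq_true]
      intro j hj
      exact decide_eq_true_iff.2 (h5 j (List.mem_range.1 hj))
  · constructor
    · rintro ⟨j, hj, h⟩
      rw [Bool.and_eq_true, List.all_eq_true] at h
      refine ⟨j, List.mem_range.1 hj, h.1, fun y hy => ?_⟩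
      have := h.2 y hy
      simpa using this
    · rintro ⟨j, hj, h, h'⟩
      refine ⟨j, List.mem_range.2 hj, ?_⟩
      rw [Bool.and_eq_true, List.all_eq_true]
      refine ⟨h, fun y hy => ?_⟩
      have := h' y hy
      simpa using this

end Pool.Agent.H548R2.Post
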