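import Pool.Agent.H548R2.Post.Defs
import Pool.Agent.H548R2.Post.T33
set_option autoImplicit false
namespace Pool.Agent.H548R2.Post
open Encodable Pool.Agent.Helper227
open Nat.Partrec (Code)

theorem t34_act {D : ℕ → ℕ → Bool} (hD : IsGrp D) {N s n k : ℕ} {σ : List Bool}
    {V : List (List ℕ)} (hs : s ≤ σ.length) (hn : n < s) (hk : k < 2 ^ σ.length)
    (hN : ∀ k < 2 ^ σ.length, ∀ i < s, Nat.pair k i < N)
    (hV : ∀ k < 2 ^ σ.length, V.getD k [] = A D s (sh D k (ext σ))) :
    actB (dtab D N) σ V s n k = act D (A D s) s n (sh D k (ext σ)) := by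
  classical
  unfold actB act
  congr 1
  funext z
  rw [Bool.eq_iff_iff, decide_eq_true_iff]
  exact goodB_iff hD hs (by omega) hk hN hV

theorem tabB_eq {D : ℕ → ℕ → Bool} (hD : IsGrp D) {N : ℕ} {σ : List Bool}
    (hN : ∀ k < 2 ^ σ.length, ∀ i < σ.length, Nat.pair k i < N) (s : ℕ) (hs : s ≤ σ.length)
    (k : ℕ) (hk : k < 2 ^ σ.length) :
    (tabB (dtab D N) σ s).getD k [] = A D s (sh D k (ext σ)) := by
  induction s generalizing k with
  | zero => rfl
  | succ s ih =>
    have hV : ∀ k < 2 ^ σ.length, (tabB (dtab D N) σ s).getD k [] = A D s (sh D k (ext σ)) :=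
      fun k hk => ih (by omega) k hk
    show (stepB (dtab D N) σ (tabB (dtab D N) σ s) s).getD k [] =
      A D s (sh D k (ext σ)) ++
        (List.range s).filterMap (fun n => act D (A D s) s n (sh D k (ext σ)))
    unfold stepB
    rw [List.getD_eq_getElem?_getD, List.getElem?_map, List.getElem?_range hk, Option.map_some,
      Option.getD_some, hV k hk]
    congr 1
    apply List.filterMap_congr
    intro n hn
    rw [List.mem_range] at hn
    exact t34_act hD (by omega) hn hk (fun k hk i hi => hN k hk i (by omega)) hV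

end Pool.Agent.H548R2.Post
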