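import Pool.Agent.H548R2.Post.Defs
set_option autoImplicit false
namespace Pool.Agent.H548R2.Post
open Encodable Pool.Agent.Helper227
open Nat.Partrec (Code)

theorem computable_dtab {D : ℕ → ℕ → Bool} (hD : Computable₂ D) : Computable (dtab D) := by
  have hf : Computable fun p : ℕ => D p.unpair.1 p.unpair.2 :=
    hD.comp (Computable.fst.comp Computable.unpair) (Computable.snd.comp Computable.unpair)
  have h1 : Computable₂ fun (_ : ℕ) (y : ℕ × List Bool) => y.2 ++ [D y.1.unpair.1 y.1.unpair.2] := by
    refine (Primrec.list_concat.to_comp.comp ?_ ?_)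
    · exact Computable.snd.comp Computable.snd
    · exact hf.comp (Computable.fst.comp Computable.snd)
  have h2 := Computable.nat_rec (f := fun n : ℕ => n) (g := fun _ : ℕ => ([] : List Bool))
    Computable.id (Computable.const []) h1
  refine h2.of_eq fun N => ?_
  induction N with
  | zero => rfl
  | succ N ih =>
    simp only at ih ⊢
    rw [ih]
    simp [dtab, List.range_succ]

end Pool.Agent.H548R2.Post
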