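import Pool.Agent.H548R2.Post.Defs
import Pool.Agent.H548R2.Post.T05
import Pool.Agent.H548R2.Post.T20
import Pool.Agent.H548R2.Post.T28
import Pool.Agent.H548R2.Post.T30
import Pool.Agent.H548R2.Post.T34
set_option autoImplicit false
namespace Pool.Agent.H548R2.Post
open Encodable Pool.Agent.Helper227
open Nat.Partrec (Code)

/-- P3 -/
theorem computable_A {D : ℕ → ℕ → Bool} (hD : Computable₂ D) (hG : IsGrp D) :
    Computable fun σ : List Bool => A D σ.length (ext σ) := by
  have hN : Computable fun σ : List Bool => Nat.pair (2 ^ σ.length) σ.length :=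
    (Primrec₂.natPair.comp (primrec_pow.comp (Primrec.const 2) Primrec.list_length)
      Primrec.list_length).to_comp
  have hd : Computable fun σ : List Bool => dtab D (Nat.pair (2 ^ σ.length) σ.length) :=
    (computable_dtab hD).comp hN
  have ht : Computable fun σ : List Bool =>
      tabB (dtab D (Nat.pair (2 ^ σ.length) σ.length)) σ σ.length :=
    primrec_tabB.to_comp.comp ((hd.pair Computable.id).pair Primrec.list_length.to_comp)
  have h0 : Primrec fun l : List (List ℕ) => l.getD 0 [] :=
    (Primrec.list_getD []).comp Primrec.id (Primrec.const 0)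
  refine (h0.to_comp.comp ht).of_eq fun σ => ?_
  rw [tabB_eq hG ?_ σ.length le_rfl 0 (by positivity), sh_zero hG]
  intro k hk i hi
  exact (Nat.pair_lt_pair_left _ hk).trans (Nat.pair_lt_pair_right _ hi)

end Pool.Agent.H548R2.Post
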