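import Pool.Agent.H548R2.Post.Defs
import Pool.Agent.H548R2.Post.T08

set_option autoImplicit false

namespace Pool.Agent.H548R2.Post

open Encodable Pool.Agent.Helper227
open Nat.Partrec (Code)

theorem A_ext_pre (D : ℕ → ℕ → Bool) (s : ℕ) (X : ℕ → Bool) :
    A D (pre X s).length (ext (pre X s)) = A D s X := by
  rw [length_pre]
  apply A_local
  intro i hi
  show (pre X s).getD i false = X i
  exact pre_getD X s i false hi

end Pool.Agent.H548R2.Post
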