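import Pool.Agent.H548R2.Post.Defs
import Pool.Agent.H548R2.Post.T35
import Pool.Agent.H548R2.Post.T36

set_option autoImplicit false

/-!
T37: the set is c.e. in `X`
-/

namespace Pool.Agent.H548R2.Post

open Encodable Pool.Agent.Helper227
open Nat.Partrec (Code)

theorem t37_mem : PrimrecPred fun y : ℕ × List ℕ => y.1 ∈ y.2 :=
  (PP.ex_mem (α := ℕ × List ℕ) (f := fun y => y.2) (p := fun y b => y.1 = b)
    (Primrec.eq.comp (Primrec.fst.comp Primrec.fst) Primrec.snd) Primrec.snd).of_eq (by simp)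

theorem si_A {D : ℕ → ℕ → Bool} (hD : Computable₂ D) (hG : IsGrp D) (X : ℕ → Bool) :
    SI X fun z : ℕ => ∃ s, z ∈ A D s X := by
  have h1 : SI X fun z : ℕ => ∃ σ : List Bool, (∀ i < σ.length, X i = σ.getD i false) ∧
      z ∈ A D σ.length (ext σ) := by
    refine SI.ex (p := fun (z : ℕ) (σ : List Bool) =>
      (∀ i < σ.length, X i = σ.getD i false) ∧ z ∈ A D σ.length (ext σ)) (SI.and ?_ (SI.of_s1 ?_))
    · refine SI.all_lt (α := ℕ × List Bool) (p := fun x i => X i = x.2.getD i false)
        (f := fun x => x.2.length) ?_ (Primrec.list_length.comp Primrec.snd)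
      exact SI.query.comp (f := fun z : (ℕ × List Bool) × ℕ => (z.2, z.1.2.getD z.2 false))
        (Primrec.snd.pair ((Primrec.list_getD false).comp (Primrec.snd.comp Primrec.fst) Primrec.snd))
    · exact S1.comp_computable (p := fun y : ℕ × List ℕ => y.1 ∈ y.2)
        (f := fun x : ℕ × List Bool => (x.1, A D x.2.length (ext x.2))) (S1.of_prim t37_mem)
        (Computable.fst.pair ((computable_A hD hG).comp Computable.snd))
  refine h1.of_eq fun z => ?_
  constructor
  · rintro ⟨σ, h3, h4⟩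
    refine ⟨σ.length, ?_⟩
    have h5 : pre X σ.length = σ := by
      refine List.ext_getElem (by simp) fun i h5 h6 => ?_
      rw [getElem_pre, h3 i h6]
      simp [h6]
    have h6 := A_ext_pre D σ.length X
    rw [h5] at h6
    rw [← h6]
    exact h4
  · rintro ⟨s, hs⟩
    refine ⟨pre X s, fun i hi => (pre_getD X _ _ _ (by simpa using hi)).symm, ?_⟩
    rw [A_ext_pre]
    exact hs

theorem si_WB {D : ℕ → ℕ → Bool} (hD : Computable₂ D) (hG : IsGrp D) (X : ℕ → Bool) :
    SI X fun m : ℕ => WB D X m = true := by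
  classical
  have hdiv : Primrec fun m : ℕ => m / 2 := Primrec.nat_div.comp Primrec.id (Primrec.const 2)
  have hmod : Primrec fun m : ℕ => m % 2 := Primrec.nat_mod.comp Primrec.id (Primrec.const 2)
  have h1 : SI X fun m : ℕ => m % 2 = 0 ∧ X (m / 2) = true :=
    SI.and (SI.of_prim (Primrec.eq.comp hmod (Primrec.const 0)))
      (SI.query.comp (f := fun m : ℕ => (m / 2, true)) (hdiv.pair (Primrec.const true)))
  have h2 : SI X fun m : ℕ => ¬ (m % 2 = 0) ∧ ∃ s, m / 2 ∈ A D s X :=
    SI.and (SI.of_prim (PrimrecPred.not (Primrec.eq.comp hmod (Primrec.const 0))))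
      ((si_A hD hG X).comp (f := fun m : ℕ => m / 2) hdiv)
  refine (SI.or h1 h2).of_eq fun m => ?_
  unfold WB
  by_cases hm : m % 2 = 0
  · simp [hm]
  · simp [hm]

end Pool.Agent.H548R2.Post
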