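import Pool.Agent.H548R2.Post.Defs
set_option autoImplicit false
namespace Pool.Agent.H548R2.Post
open Encodable Pool.Agent.Helper227
open Nat.Partrec (Code)

/-- D2 -/
theorem le_WB (D : ℕ → ℕ → Bool) (X : ℕ → Bool) : TLe X (WB D X) := by
  have hf : Computable fun n : ℕ => 2 * n :=
    (Primrec.nat_mul.comp (Primrec.const 2) Primrec.id).to_comp
  refine tLe_of_computable hf fun n => ?_
  simp [WB]

end Pool.Agent.H548R2.Post
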