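import Pool.Agent.H548R2.Post.Defs
import Pool.Agent.H548R2.Post.T35
import Pool.Agent.H548R2.Post.T36
set_option autoImplicit false
namespace Pool.Agent.H548R2.Post
open Encodable Pool.Agent.Helper227
open Nat.Partrec (Code)

theorem t39_S1 {D : ℕ → ℕ → Bool} (hD : Computable₂ D) (hG : IsGrp D) :
    S1 fun x : List Bool × ℕ => (x.2 % 2 = 0 ∧ x.1[x.2 / 2]? = some true) ∨
      (x.2 % 2 = 1 ∧ x.2 / 2 ∈ A D x.1.length (ext x.1)) := by
  have hmod : Primrec fun x : List Bool × ℕ => x.2 % 2 :=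
    Primrec.nat_mod.comp Primrec.snd (Primrec.const 2)
  have hdiv : Primrec fun x : List Bool × ℕ => x.2 / 2 :=
    Primrec.nat_div.comp Primrec.snd (Primrec.const 2)
  refine S1.or (S1.of_prim (PrimrecPred.and ?_ ?_)) (S1.and (S1.of_prim ?_) ?_)
  · exact Primrec.eq.comp hmod (Primrec.const 0)
  · exact Primrec.eq.comp (Primrec.list_getElem?.comp Primrec.fst hdiv) (Primrec.const (some true))
  · exact Primrec.eq.comp hmod (Primrec.const 1)
  · have hm : S1 fun y : List ℕ × ℕ => y.2 ∈ y.1 := by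
      refine S1.of_prim ?_
      refine (PP.ex_mem (p := fun (y : List ℕ × ℕ) (b : ℕ) => b = y.2)
        (Primrec.eq.comp Primrec.snd (Primrec.snd.comp Primrec.fst)) Primrec.fst).of_eq ?_
      intro y
      simp
    refine S1.comp_computable (f := fun x : List Bool × ℕ => (A D x.1.length (ext x.1), x.2 / 2)) hm
      (Computable.pair ?_ hdiv.to_comp)
    exact (computable_A hD hG).comp Computable.fst

/-- D3 -/
theorem exists_index {D : ℕ → ℕ → Bool} (hD : Computable₂ D) (hG : IsGrp D) :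
    ∃ e : ℕ, ∀ X : ℕ → Bool, WE X e = {m | WB D X m = true} := by
  have hE := t39_S1 hD hG
  obtain ⟨c, hc⟩ := Nat.Partrec.Code.exists_code.1 hE.re
  refine ⟨encode c, fun X => ?_⟩
  ext m
  simp only [WE, Set.mem_ofPred_eq, Denumerable.ofNat_encode]
  have h1 : (∃ k : ℕ, (c.eval (encode ((List.range k).map X, m))).Dom) ↔
      ∃ k : ℕ, (m % 2 = 0 ∧ (pre X k)[m / 2]? = some true) ∨
      (m % 2 = 1 ∧ m / 2 ∈ A D (pre X k).length (ext (pre X k))) := by
    refine exists_congr fun k => ?_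
    rw [hc]
    simp [Part.assert, pre]
  rw [h1]
  have h2 : ∀ k : ℕ, (pre X k)[m / 2]? = some true ↔ m / 2 < k ∧ X (m / 2) = true := by
    intro k
    unfold pre
    rw [List.getElem?_map]
    by_cases hk : m / 2 < k
    · rw [List.getElem?_eq_getElem (by simpa using hk)]
      simp [hk]
    · rw [List.getElem?_eq_none (by simpa using hk)]
      simp [hk]
  have h5 : WB D X m = true ↔ (if m % 2 = 0 then X (m / 2) = true else ∃ s, m / 2 ∈ A D s X) := by
    unfold WB
    split_ifs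
    · exact Iff.rfl
    · simp only [decide_eq_true_eq]
  rw [h5]
  constructor
  · rintro ⟨k, ⟨h3, h4⟩ | ⟨h3, h4⟩⟩
    · rw [if_pos h3]
      exact ((h2 k).1 h4).2
    · rw [if_neg (by omega)]
      rw [A_ext_pre] at h4
      exact ⟨k, h4⟩
  · intro h
    by_cases h3 : m % 2 = 0
    · rw [if_pos h3] at h
      exact ⟨m / 2 + 1, Or.inl ⟨h3, (h2 _).2 ⟨by omega, h⟩⟩⟩
    · rw [if_neg h3] at h
      obtain ⟨k, hk⟩ := h
      refine ⟨k, Or.inr ⟨by omega, ?_⟩⟩
      rw [A_ext_pre]
      exact hk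

end Pool.Agent.H548R2.Post
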