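import Pool.Agent.H548R2.Post.T37
set_option autoImplicit false
namespace Pool.Agent.H548R2.Post
open Encodable Pool.Agent.Helper227
open Nat.Partrec (Code)

/-- D3b -/
theorem WB_le_jump {D : ℕ → ℕ → Bool} (hD : Computable₂ D) (hG : IsGrp D) (X : ℕ → Bool) :
    TLe (WB D X) (jump X) := by
  rw [tLe_iff_SI]
  obtain ⟨h2, h3⟩ := (si_WB hD hG X).decide_jump
  have h4 : SI (jump X) fun x : ℕ × Bool =>
      (WB D X x.1 = true ∧ x.2 = true) ∨ (¬ WB D X x.1 = true ∧ x.2 = false) := by
    refine SI.or (SI.and (h2.comp Primrec.fst) (SI.of_prim ?_))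
      (SI.and (h3.comp (f := fun x : ℕ × Bool => x.1) Primrec.fst) (SI.of_prim ?_))
    · exact Primrec.eq.comp Primrec.snd (Primrec.const true)
    · exact Primrec.eq.comp Primrec.snd (Primrec.const false)
  refine h4.of_eq fun x => ?_
  rcases x with ⟨n, b⟩
  cases b <;> simp

end Pool.Agent.H548R2.Post
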