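import Pool.Agent.H548R2.Post.Defs
import Pool.Agent.H548R2.Post.T07
import Pool.Agent.H548R2.Post.T13
import Pool.Agent.H548R2.Post.T18
set_option autoImplicit false
namespace Pool.Agent.H548R2.Post
open Encodable Pool.Agent.Helper227
open Nat.Partrec (Code)

theorem not_WB_le {D : ℕ → ℕ → Bool} (hG : IsGrp D) (X : ℕ → Bool) :
    ¬ TLe (WB D X) X := by
  intro h
  have h1 : SI X (fun x : ℕ × Bool => WB D X x.1 = x.2) := tLe_iff_SI.1 h
  have hf : Primrec (fun z : ℕ => ((2 * z + 1, false) : ℕ × Bool)) := by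
    refine Primrec.pair ?_ (Primrec.const false)
    exact Primrec.nat_add.comp (Primrec.nat_mul.comp (Primrec.const 2) Primrec.id) (Primrec.const 1)
  have h2 : SI X (fun z : ℕ => WB D X (2 * z + 1) = false) := h1.comp hf
  have h3 : SI X (fun z : ℕ => z ∈ {z | ¬ ∃ s, z ∈ A D s X}) := by
    refine h2.of_eq fun z => ?_
    rw [Set.mem_ofPred_eq, ← WB_odd, Bool.not_eq_true]
  obtain ⟨n, hn⟩ := ceIn_iff_exists_WE.1 (SI.iff_ceIn.2 h3)
  obtain ⟨z, hz, s, hs⟩ := simple hG X n (by rw [← hn]; exact coinfinite hG X)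
  rw [← hn] at hz
  exact hz ⟨s, hs⟩

end Pool.Agent.H548R2.Post
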