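import Pool.Agent.H548R2.Post.Defs
import Pool.Agent.H548R2.Post.T29
import Pool.Agent.H548R2.Post.T35
import Pool.Agent.H548R2.Post.T36
set_option autoImplicit false
namespace Pool.Agent.H548R2.Post
open Encodable Pool.Agent.Helper227
open Nat.Partrec (Code)

theorem t42_pre_congr {X Y : ℕ → Bool} {t : ℕ} (h : ∀ i < t, X i = Y i) : pre X t = pre Y t := by
  unfold pre
  exact List.map_congr_left fun i hi => h i (by simpa using hi)

theorem t42_En_congr {s e z : ℕ} {X Y : ℕ → Bool} (h : ∀ i < s, X i = Y i) :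
    En s e z X ↔ En s e z Y := by
  unfold En
  constructor
  · rintro ⟨t, ht, h1⟩
    exact ⟨t, ht, by rwa [← t42_pre_congr fun i hi => h i (lt_of_lt_of_le hi ht)]⟩
  · rintro ⟨t, ht, h1⟩
    exact ⟨t, ht, by rwa [t42_pre_congr fun i hi => h i (lt_of_lt_of_le hi ht)]⟩

theorem t42_ext_pre {X : ℕ → Bool} {s i : ℕ} (hi : i < s) : ext (pre X s) i = X i := by
  unfold ext
  exact pre_getD X s i false hi

theorem t42_jn {X : ℕ → Bool} {s : ℕ} (a : List ℕ) {i : ℕ} (hi : i < s) :
    jn (ext (pre X s)) a i = jn X a i := by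
  unfold jn
  split_ifs with h
  · exact t42_ext_pre (lt_of_le_of_lt (Nat.div_le_self i 2) hi)
  · rfl

theorem t42_key {D : ℕ → ℕ → Bool} (X : ℕ → Bool) (e s : ℕ) :
    En s e e (jn (ext (pre X s)) (A D (pre X s).length (ext (pre X s)))) ↔
      En s e e (jn X (A D s X)) := by
  rw [A_ext_pre]
  exact t42_En_congr fun i hi => t42_jn _ hi

theorem t42_eq_pre {X : ℕ → Bool} {σ : List Bool} (h3 : ∀ i < σ.length, X i = σ.getD i false) :
    pre X σ.length = σ := by
  refine List.ext_getElem (by simp) fun i h5 h6 => ?_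
  rw [getElem_pre, h3 i h6]
  simp [h6]

theorem t42_gen {X : ℕ → Bool} {P : (ℕ × ℕ) × List Bool → Prop} (hP : S1 P) :
    SI X fun x : ℕ × ℕ => P (x, pre X x.2) := by
  have h2 : SI X fun x : ℕ × ℕ => ∃ σ : List Bool, (∀ i < σ.length, X i = σ.getD i false) ∧
      σ.length = x.2 ∧ P (x, σ) := by
    refine SI.ex (p := fun (x : ℕ × ℕ) (σ : List Bool) =>
      (∀ i < σ.length, X i = σ.getD i false) ∧ σ.length = x.2 ∧ P (x, σ))
      (SI.and ?_ (SI.and ?_ ?_))
    · refine SI.all_lt (α := (ℕ × ℕ) × List Bool) (p := fun x i => X i = x.2.getD i false)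
        (f := fun x => x.2.length) ?_ (Primrec.list_length.comp Primrec.snd)
      exact SI.query.comp (f := fun z : ((ℕ × ℕ) × List Bool) × ℕ => (z.2, z.1.2.getD z.2 false))
        (Primrec.snd.pair ((Primrec.list_getD false).comp (Primrec.snd.comp Primrec.fst)
          Primrec.snd))
    · exact SI.of_prim (Primrec.eq.comp (Primrec.list_length.comp Primrec.snd)
        (Primrec.snd.comp Primrec.fst))
    · exact SI.of_s1 hP
  refine h2.of_eq fun x => ?_
  constructor
  · rintro ⟨σ, h3, h4, h5⟩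
    have := t42_eq_pre h3
    rw [h4] at this
    rwa [this]
  · intro h
    exact ⟨pre X x.2, fun i hi => (pre_getD X _ _ _ (by simpa using hi)).symm, by simp, h⟩

theorem t42_comp {D : ℕ → ℕ → Bool} (hD : Computable₂ D) (hG : IsGrp D) :
    Computable fun y : (ℕ × ℕ) × List Bool =>
      (((y.1.2, y.1.1, y.1.1), y.2, A D y.2.length (ext y.2)) :
        (ℕ × ℕ × ℕ) × List Bool × List ℕ) := by
  have h1 : Computable fun y : (ℕ × ℕ) × List Bool => ((y.1.2, y.1.1, y.1.1) : ℕ × ℕ × ℕ) :=
    ((Primrec.snd.comp Primrec.fst).pair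
      ((Primrec.fst.comp Primrec.fst).pair (Primrec.fst.comp Primrec.fst))).to_comp
  have h2 : Computable fun y : (ℕ × ℕ) × List Bool => A D y.2.length (ext y.2) :=
    (computable_A hD hG).comp Computable.snd
  exact h1.pair (Computable.snd.pair h2)

theorem si_En {D : ℕ → ℕ → Bool} (hD : Computable₂ D) (hG : IsGrp D) (X : ℕ → Bool) :
    (SI X fun x : ℕ × ℕ => En x.2 x.1 x.1 (jn X (A D x.2 X))) ∧
      SI X fun x : ℕ × ℕ => ¬ En x.2 x.1 x.1 (jn X (A D x.2 X)) := by
  constructor
  · have hP := (S1.of_prim primrec_En).comp_computable (t42_comp hD hG)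
    exact (t42_gen (X := X) hP).of_eq fun x => t42_key X x.1 x.2
  · have hP := (S1.of_prim (PrimrecPred.not primrec_En)).comp_computable (t42_comp hD hG)
    exact (t42_gen (X := X) hP).of_eq fun x => not_congr (t42_key X x.1 x.2)

end Pool.Agent.H548R2.Post
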