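import Pool.Agent.H548R2.Post.Defs
set_option autoImplicit false
namespace Pool.Agent.H548R2.Post
open Encodable Pool.Agent.Helper227
open Nat.Partrec (Code)

private theorem t43_aux {X : ℕ → Bool} {p : ℕ → ℕ → Prop}
    (h2 : SI X fun x : ℕ × ℕ => ¬ p x.1 x.2) :
    SI (jump X) fun e : ℕ => ∃ s0, ∀ s ≥ s0, p e s := by
  have h3 : SI X fun x : (ℕ × ℕ) × ℕ => x.1.2 ≤ x.2 ∧ ¬ p x.1.1 x.2 := by
    refine SI.and ?_ ?_
    · exact SI.of_prim (Primrec.nat_le.comp (Primrec.snd.comp Primrec.fst) Primrec.snd)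
    · exact h2.comp (Primrec.pair (Primrec.fst.comp Primrec.fst) Primrec.snd)
  have h4 : SI X fun x : ℕ × ℕ => ∃ s, x.2 ≤ s ∧ ¬ p x.1 s := SI.ex h3
  have h6 : SI (jump X) fun x : ℕ × ℕ => ¬ ∃ s, x.2 ≤ s ∧ ¬ p x.1 s := (SI.decide_jump h4).2
  refine (SI.ex (p := fun e s0 => ¬ ∃ s, s0 ≤ s ∧ ¬ p e s) h6).of_eq fun e => ?_
  refine exists_congr fun s0 => ?_
  push Not
  rfl

theorem tLe_jump_of_limit {X Z : ℕ → Bool} {p : ℕ → ℕ → Prop}
    (h1 : SI X fun x : ℕ × ℕ => p x.1 x.2) (h2 : SI X fun x : ℕ × ℕ => ¬ p x.1 x.2)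
    (h3 : ∀ e, Z e = true → ∃ s0, ∀ s ≥ s0, p e s)
    (h4 : ∀ e, Z e = false → ∃ s0, ∀ s ≥ s0, ¬ p e s) : TLe Z (jump X) := by
  have a1 : SI (jump X) fun e : ℕ => ∃ s0, ∀ s ≥ s0, p e s := t43_aux h2
  have a2 : SI (jump X) fun e : ℕ => ∃ s0, ∀ s ≥ s0, ¬ p e s := by
    refine t43_aux (p := fun e s => ¬ p e s) ?_
    exact h1.of_eq fun x => not_not.symm
  have b1 : ∀ e, Z e = true ↔ ∃ s0, ∀ s ≥ s0, p e s := by
    intro e
    refine ⟨h3 e, ?_⟩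
    rintro ⟨s0, hs0⟩
    by_contra hne
    have hf : Z e = false := by simpa using hne
    obtain ⟨s1, hs1⟩ := h4 e hf
    exact hs1 (max s0 s1) (le_max_right _ _) (hs0 (max s0 s1) (le_max_left _ _))
  have b2 : ∀ e, Z e = false ↔ ∃ s0, ∀ s ≥ s0, ¬ p e s := by
    intro e
    refine ⟨h4 e, ?_⟩
    rintro ⟨s0, hs0⟩
    by_contra hne
    have hf : Z e = true := by simpa using hne
    obtain ⟨s1, hs1⟩ := h3 e hf
    exact hs0 (max s0 s1) (le_max_left _ _) (hs1 (max s0 s1) (le_max_right _ _))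
  rw [tLe_iff_SI]
  have c1 : SI (jump X) fun x : ℕ × Bool => x.2 = true ∧ ∃ s0, ∀ s ≥ s0, p x.1 s :=
    SI.and (SI.of_prim (Primrec.eq.comp Primrec.snd (Primrec.const true)))
      (a1.comp Primrec.fst)
  have c2 : SI (jump X) fun x : ℕ × Bool => x.2 = false ∧ ∃ s0, ∀ s ≥ s0, ¬ p x.1 s :=
    SI.and (SI.of_prim (Primrec.eq.comp Primrec.snd (Primrec.const false)))
      (a2.comp Primrec.fst)
  refine (SI.or c1 c2).of_eq fun x => ?_
  obtain ⟨e, b⟩ := x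
  cases b
  · simp only [Bool.false_eq_true, false_and, false_or, true_and]
    exact (b2 e).symm
  · simp only [true_and, Bool.true_eq_false, false_and, or_false]
    exact (b1 e).symm

end Pool.Agent.H548R2.Post
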