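import Pool.Agent.H548R2.Post.Defs
import Pool.Agent.H548R2.Post.T16
import Pool.Agent.H548R2.Post.T17
import Pool.Agent.H548R2.Post.T42
import Pool.Agent.H548R2.Post.T43
set_option autoImplicit false
namespace Pool.Agent.H548R2.Post
open Encodable Pool.Agent.Helper227
open Nat.Partrec (Code)

/-- D5 -/
theorem low {D : ℕ → ℕ → Bool} (hD : Computable₂ D) (hG : IsGrp D) (X : ℕ → Bool) :
    TLe (jump (WB D X)) (jump X) := by
  obtain ⟨h1, h2⟩ := si_En hD hG X
  exact tLe_jump_of_limit (p := fun e s => En s e e (jn X (A D s X))) h1 h2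
    (fun e he => jump_true X e he) (fun e he => jump_false hG X e he)

end Pool.Agent.H548R2.Post
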