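import Pool.Agent.H548R2.Post.Defs
set_option autoImplicit false
namespace Pool.Agent.H548R2.Post
open Encodable Pool.Agent.Helper227
open Nat.Partrec (Code)

theorem tLe_of_fun {Y Z : ℕ → Bool} {g : ℕ → Bool → Bool} (hg : Computable₂ g)
    (h : ∀ n, Y n = g n (Z n)) : TLe Y Z := by
  rw [tLe_iff_SI]
  have h1 : SI Z fun x : (ℕ × Bool) × Bool => Z x.1.1 = x.2 :=
    SI.comp (f := fun x : (ℕ × Bool) × Bool => (x.1.1, x.2)) SI.query
      ((Primrec.fst.comp Primrec.fst).pair Primrec.snd)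
  have h0 : SI Z fun x : Bool × Bool => x.1 = x.2 :=
    SI.of_prim (Primrec.eq.comp Primrec.fst Primrec.snd)
  have h2 : SI Z fun x : (ℕ × Bool) × Bool => g x.1.1 x.2 = x.1.2 :=
    SI.comp_computable (f := fun x : (ℕ × Bool) × Bool => (g x.1.1 x.2, x.1.2)) h0
      ((hg.comp (Computable.fst.comp Computable.fst) Computable.snd).pair
        (Computable.snd.comp Computable.fst))
  have h3 : SI Z fun x : ℕ × Bool => ∃ c : Bool, Z x.1 = c ∧ g x.1 c = x.2 :=
    SI.ex (p := fun (x : ℕ × Bool) (c : Bool) => Z x.1 = c ∧ g x.1 c = x.2) (SI.and h1 h2)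
  exact h3.of_eq fun x => by
    constructor
    · rintro ⟨c, h4, h5⟩
      rw [h, h4, h5]
    · intro h4
      exact ⟨Z x.1, rfl, by rw [← h]; exact h4⟩

end Pool.Agent.H548R2.Post
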