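import Pool.Agent.H548R2.Post.T07
import Pool.Agent.H548R2.Post.T19
import Pool.Agent.H548R2.Post.T46
set_option autoImplicit false
namespace Pool.Agent.H548R2.Post
open Encodable Pool.Agent.Helper227
open Nat.Partrec (Code)

/-- the function computing `WB D (sh D k X) m` from `m` and `WB D X m` -/
def t47_g (D : ℕ → ℕ → Bool) (k b : ℕ) (L : List Bool) (m : ℕ) (c : Bool) : Bool :=
  if m % 2 = 0 then xor c (D k (m / 2)) else if m / 2 < b then L.getD (m / 2) false else c

theorem t47_comp {D : ℕ → ℕ → Bool} (hD : Computable₂ D) (k b : ℕ) (L : List Bool) :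
    Computable₂ (t47_g D k b L) := by
  have hm : Computable (fun p : ℕ × Bool => p.1) := Computable.fst
  have hc : Computable (fun p : ℕ × Bool => p.2) := Computable.snd
  have hdiv : Computable (fun p : ℕ × Bool => p.1 / 2) :=
    (Primrec.nat_div.comp Primrec.fst (Primrec.const 2)).to_comp
  have h1 : Computable (fun p : ℕ × Bool => decide (p.1 % 2 = 0)) := by
    have : PrimrecPred (fun p : ℕ × Bool => p.1 % 2 = 0) :=
      PrimrecRel.comp Primrec.eq (Primrec.nat_mod.comp Primrec.fst (Primrec.const 2))
        (Primrec.const 0)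
    exact (PrimrecPred.decide this).to_comp
  have h2 : Computable (fun p : ℕ × Bool => decide (p.1 / 2 < b)) := by
    have : PrimrecPred (fun p : ℕ × Bool => p.1 / 2 < b) :=
      PrimrecRel.comp Primrec.nat_lt (Primrec.nat_div.comp Primrec.fst (Primrec.const 2))
        (Primrec.const b)
    exact (PrimrecPred.decide this).to_comp
  have h3 : Computable (fun p : ℕ × Bool => D k (p.1 / 2)) :=
    Computable₂.comp hD (Computable.const k) hdiv
  have h4 : Computable (fun p : ℕ × Bool => xor p.2 (D k (p.1 / 2))) :=
    Computable₂.comp (f := xor) ((Primrec.dom_finite (fun p : Bool × Bool => xor p.1 p.2)).to_comp) hc h3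
  have h5 : Computable (fun p : ℕ × Bool => L.getD (p.1 / 2) false) := by
    have : Primrec (fun n : ℕ => L.getD n false) :=
      Primrec₂.comp (f := fun (l : List Bool) (n : ℕ) => l.getD n false)
        (Primrec.list_getD false) (Primrec.const L) Primrec.id
    exact this.to_comp.comp hdiv
  have h6 : Computable (fun p : ℕ × Bool =>
      cond (decide (p.1 % 2 = 0)) (xor p.2 (D k (p.1 / 2)))
        (cond (decide (p.1 / 2 < b)) (L.getD (p.1 / 2) false) p.2)) :=
    Computable.cond h1 h4 (Computable.cond h2 h5 hc)
  refine h6.of_eq (fun p => ?_)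
  simp only [t47_g, Bool.cond_decide]

theorem WB_sh_le {D : ℕ → ℕ → Bool} (hD : Computable₂ D) (hG : IsGrp D) (k : ℕ) (X : ℕ → Bool) :
    TLe (WB D (sh D k X)) (WB D X) := by
  classical
  obtain ⟨b, hb⟩ := almost_equal hG X k
  let L : List Bool := (List.range b).map (fun z => decide (∃ s, z ∈ A D s (sh D k X)))
  refine tLe_of_fun (t47_comp hD k b L) (fun m => ?_)
  unfold t47_g
  rcases Nat.even_or_odd' m with ⟨n, rfl | rfl⟩
  · rw [WB_even, WB_even]
    have h1 : (2 * n) % 2 = 0 := by omega
    have h2 : (2 * n) / 2 = n := by omega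
    simp only [h1, h2, if_true]
    rfl
  · have h1 : (2 * n + 1) % 2 = 1 := by omega
    have h2 : (2 * n + 1) / 2 = n := by omega
    simp only [h1, h2]
    rw [if_neg (by norm_num)]
    by_cases hn : n < b
    · rw [if_pos hn]
      have h3 : L.getD n false = decide (∃ s, n ∈ A D s (sh D k X)) := by
        simp [L, List.getD_eq_getElem?_getD, hn]
      rw [h3]
      have := WB_odd (D := D) (sh D k X) n
      by_cases h4 : ∃ s, n ∈ A D s (sh D k X)
      · rw [this.2 h4]; simp [h4]
      · have h5 : WB D (sh D k X) (2 * n + 1) ≠ true := fun h => h4 (this.1 h)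
        have h6 : WB D (sh D k X) (2 * n + 1) = false := by
          cases hh : WB D (sh D k X) (2 * n + 1) with
          | false => rfl
          | true => exact absurd hh h5
        rw [h6]; simp [h4]
    · rw [if_neg hn]
      have h3 := hb n (by omega)
      have h4 := WB_odd (D := D) (sh D k X) n
      have h5 := WB_odd (D := D) X n
      have h6 : WB D (sh D k X) (2 * n + 1) = true ↔ WB D X (2 * n + 1) = true := by
        rw [h4, h5]; exact h3.symm
      exact Bool.eq_iff_iff.2 h6

end Pool.Agent.H548R2.Post
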