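import Pool.Agent.H548R2.Post.Defs
set_option autoImplicit false
namespace Pool.Agent.H548R2.Post
open Encodable Pool.Agent.Helper227
open Nat.Partrec (Code)

/-- partial sums over the bits -/
def t48_S (C : ℕ → ℕ → Bool) (k i : ℕ) (N : ℕ) : Bool :=
  Nat.rec false (fun n acc => xor acc (k.testBit n && C n i)) N

theorem t48_S_succ (C : ℕ → ℕ → Bool) (k i N : ℕ) :
    t48_S C k i (N + 1) = xor (t48_S C k i N) (k.testBit N && C N i) := rfl

theorem t48_S_xor (C : ℕ → ℕ → Bool) (j k i N : ℕ) :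
    t48_S C (j ^^^ k) i N = xor (t48_S C j i N) (t48_S C k i N) := by
  induction N with
  | zero => rfl
  | succ N ih =>
    rw [t48_S_succ, t48_S_succ, t48_S_succ, ih, Nat.testBit_xor]
    cases t48_S C j i N <;> cases t48_S C k i N <;> cases j.testBit N <;> cases k.testBit N <;>
      cases C N i <;> rfl

theorem t48_S_ge (C : ℕ → ℕ → Bool) (k i M N : ℕ) (hM : k < 2 ^ M) (hMN : M ≤ N) :
    t48_S C k i N = t48_S C k i M := by
  induction N, hMN using Nat.le_induction with
  | base => rfl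
  | succ N hN ih =>
    rw [t48_S_succ, ih]
    have h1 : k.testBit N = false :=
      Nat.testBit_lt_two_pow (hM.trans_le (Nat.pow_le_pow_right (by norm_num) hN))
    rw [h1]
    cases t48_S C k i M <;> rfl

theorem t48_S_pow_lt (C : ℕ → ℕ → Bool) (i j N : ℕ) (hN : N ≤ i) :
    t48_S C (2 ^ i) j N = false := by
  induction N with
  | zero => rfl
  | succ N ih =>
    rw [t48_S_succ, ih (by omega), Nat.testBit_two_pow]
    have : ¬ i = N := by omega
    simp [this]

theorem t48_testBit : Primrec₂ Nat.testBit := by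
  have hpow : Primrec₂ ((· ^ ·) : ℕ → ℕ → ℕ) := Primrec₂.unpaired'.1 Nat.Primrec.pow
  have h2 : Primrec (fun p : ℕ × ℕ => 2 ^ p.2) := hpow.comp (Primrec.const 2) Primrec.snd
  have h3 : Primrec (fun p : ℕ × ℕ => p.1 / 2 ^ p.2) := Primrec.nat_div.comp Primrec.fst h2
  have h0 : Primrec (fun p : ℕ × ℕ => p.1 / 2 ^ p.2 % 2) := Primrec.nat_mod.comp h3 (Primrec.const 2)
  have h4 : Primrec (fun _ : ℕ × ℕ => (1 : ℕ)) := Primrec.const 1
  have h1 : Primrec (fun p : ℕ × ℕ => (p.1 / 2 ^ p.2 % 2 == 1)) := Primrec.beq.comp h0 h4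
  refine h1.of_eq fun p => ?_
  rw [Nat.testBit_eq_decide_div_mod_eq]
  rfl

theorem exists_grp (C : ℕ → ℕ → Bool) (hC : Computable₂ C) :
    ∃ D : ℕ → ℕ → Bool, Computable₂ D ∧ IsGrp D ∧ ∀ i j, D (2 ^ i) j = C i j := by
  refine ⟨fun k i => t48_S C k i k, ?_, ?_, ?_⟩
  · have hx : Primrec₂ xor := Primrec.dom_bool₂ xor
    have ha : Primrec₂ and := Primrec.dom_bool₂ and
    have hb : Computable₂ Nat.testBit := t48_testBit.to_comp
    have hh : Computable₂ (fun (q : ℕ × ℕ) (y : ℕ × Bool) =>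
        xor y.2 (q.1.testBit y.1 && C y.1 q.2)) := by
      have f1 : Computable (fun r : (ℕ × ℕ) × (ℕ × Bool) => r.1.1) :=
        Computable.fst.comp Computable.fst
      have f2 : Computable (fun r : (ℕ × ℕ) × (ℕ × Bool) => r.1.2) :=
        Computable.snd.comp Computable.fst
      have f3 : Computable (fun r : (ℕ × ℕ) × (ℕ × Bool) => r.2.1) :=
        Computable.fst.comp Computable.snd
      have f4 : Computable (fun r : (ℕ × ℕ) × (ℕ × Bool) => r.2.2) :=
        Computable.snd.comp Computable.snd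
      have g1 : Computable (fun r : (ℕ × ℕ) × (ℕ × Bool) => r.1.1.testBit r.2.1) :=
        hb.comp f1 f3
      have g2 : Computable (fun r : (ℕ × ℕ) × (ℕ × Bool) => C r.2.1 r.1.2) := hC.comp f3 f2
      have g3 : Computable (fun r : (ℕ × ℕ) × (ℕ × Bool) =>
          (r.1.1.testBit r.2.1 && C r.2.1 r.1.2)) := ha.to_comp.comp g1 g2
      exact hx.to_comp.comp f4 g3
    have h1 := Computable.nat_rec (f := fun q : ℕ × ℕ => q.1) (g := fun _ : ℕ × ℕ => false)
      Computable.fst (Computable.const false) hh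
    exact h1
  · intro j k i
    change t48_S C (j ^^^ k) i (j ^^^ k) = xor (t48_S C j i j) (t48_S C k i k)
    have e1 := t48_S_ge C (j ^^^ k) i (j ^^^ k) (max (max j k) (j ^^^ k)) Nat.lt_two_pow_self
      (le_max_right _ _)
    have e2 := t48_S_ge C j i j (max (max j k) (j ^^^ k)) Nat.lt_two_pow_self
      ((le_max_left _ _).trans (le_max_left _ _))
    have e3 := t48_S_ge C k i k (max (max j k) (j ^^^ k)) Nat.lt_two_pow_self
      ((le_max_right _ _).trans (le_max_left _ _))
    rw [← e1, ← e2, ← e3, t48_S_xor]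
  · intro i j
    change t48_S C (2 ^ i) j (2 ^ i) = C i j
    rw [t48_S_ge C (2 ^ i) j (i + 1) (2 ^ i) (Nat.pow_lt_pow_right (by norm_num) (Nat.lt_succ_self i))
      Nat.lt_two_pow_self, t48_S_succ, t48_S_pow_lt C i j i le_rfl, Nat.testBit_two_pow]
    simp

end Pool.Agent.H548R2.Post
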