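import Pool.Agent.H548R2.Post.Defs
set_option autoImplicit false
namespace Pool.Agent.H548R2.Post
open Encodable Pool.Agent.Helper227
open Nat.Partrec (Code)

/-- codes without unbounded search -/
def t49_nr (c : Code) : Bool :=
  Nat.Partrec.Code.recOn (motive := fun _ => Bool) c true true true true
    (fun _ _ a b => a && b) (fun _ _ a b => a && b) (fun _ _ a b => a && b) (fun _ _ => false)

theorem t49_nr_prim : Primrec t49_nr := by
  have hand : Primrec fun a : Code × Code × Code × Bool × Bool => (a.2.2.2.1 && a.2.2.2.2) :=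
    Primrec.and.comp (Primrec.fst.comp (Primrec.snd.comp (Primrec.snd.comp Primrec.snd)))
      (Primrec.snd.comp (Primrec.snd.comp (Primrec.snd.comp Primrec.snd)))
  exact Nat.Partrec.Code.primrec_recOn (c := fun c : Code => c) Primrec.id
    (z := fun _ => true) (Primrec.const true) (s := fun _ => true) (Primrec.const true)
    (l := fun _ => true) (Primrec.const true) (r := fun _ => true) (Primrec.const true)
    (pr := fun _ _ _ a b => a && b) hand (co := fun _ _ _ a b => a && b) hand
    (pc := fun _ _ _ a b => a && b) hand (rf := fun _ _ _ => false) (Primrec.const false)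

theorem t49_total (c : Code) : t49_nr c = true → ∀ n, ∃ v, v ∈ c.eval n := by
  induction c with
  | zero => intro _ n; exact ⟨0, by simp [Code.eval, pure, PFun.pure]⟩
  | succ => intro _ n; exact ⟨n + 1, by simp [Code.eval]⟩
  | left => intro _ n; exact ⟨n.unpair.1, by simp [Code.eval]⟩
  | right => intro _ n; exact ⟨n.unpair.2, by simp [Code.eval]⟩
  | pair cf cg hf hg =>
    intro h n
    have h' : (t49_nr cf && t49_nr cg) = true := h
    rw [Bool.and_eq_true] at h'
    obtain ⟨a, ha⟩ := hf h'.1 n
    obtain ⟨b, hb⟩ := hg h'.2 n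
    refine ⟨Nat.pair a b, ?_⟩
    simp only [Code.eval, Seq.seq, Part.map_eq_map, Part.mem_bind_iff, Part.mem_map_iff]
    exact ⟨_, ⟨a, ha, rfl⟩, b, hb, rfl⟩
  | comp cf cg hf hg =>
    intro h n
    have h' : (t49_nr cf && t49_nr cg) = true := h
    rw [Bool.and_eq_true] at h'
    obtain ⟨b, hb⟩ := hg h'.2 n
    obtain ⟨a, ha⟩ := hf h'.1 b
    exact ⟨a, (Part.mem_bind hb ha : a ∈ (cg.eval n).bind cf.eval)⟩
  | prec cf cg hf hg =>
    intro h n
    have h' : (t49_nr cf && t49_nr cg) = true := h
    rw [Bool.and_eq_true] at h'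
    have key : ∀ a k : ℕ, ∃ v, v ∈ (Code.prec cf cg).eval (Nat.pair a k) := by
      intro a k
      induction k with
      | zero =>
        obtain ⟨v, hv⟩ := hf h'.1 a
        exact ⟨v, by rw [Code.eval_prec_zero]; exact hv⟩
      | succ k ih =>
        obtain ⟨w, hw⟩ := ih
        obtain ⟨v, hv⟩ := hg h'.2 (Nat.pair a (Nat.pair k w))
        refine ⟨v, ?_⟩
        rw [Code.eval_prec_succ]
        simp only [Part.bind_eq_bind, Part.mem_bind_iff]
        exact ⟨w, hw, hv⟩
    have := key n.unpair.1 n.unpair.2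
    rwa [Nat.pair_unpair] at this
  | rfind' cf _ => intro h; exact absurd h (by simp [t49_nr])

theorem t49_complete {f : ℕ → ℕ} (hf : Nat.Primrec f) :
    ∃ c : Code, t49_nr c = true ∧ ∀ n, f n ∈ c.eval n := by
  induction hf with
  | zero => exact ⟨Code.zero, rfl, fun n => by simp [Code.eval, pure, PFun.pure]⟩
  | succ => exact ⟨Code.succ, rfl, fun n => by simp [Code.eval]⟩
  | left => exact ⟨Code.left, rfl, fun n => by simp [Code.eval]⟩
  | right => exact ⟨Code.right, rfl, fun n => by simp [Code.eval]⟩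
  | pair _ _ ihf ihg =>
    obtain ⟨cf, nf, ef⟩ := ihf
    obtain ⟨cg, ng, eg⟩ := ihg
    refine ⟨Code.pair cf cg, ?_, fun n => ?_⟩
    · show (t49_nr cf && t49_nr cg) = true
      rw [nf, ng]; rfl
    · simp only [Code.eval, Seq.seq, Part.map_eq_map, Part.mem_bind_iff, Part.mem_map_iff]
      exact ⟨_, ⟨_, ef n, rfl⟩, _, eg n, rfl⟩
  | comp _ _ ihf ihg =>
    obtain ⟨cf, nf, ef⟩ := ihf
    obtain ⟨cg, ng, eg⟩ := ihg
    refine ⟨Code.comp cf cg, ?_, fun n => ?_⟩
    · show (t49_nr cf && t49_nr cg) = true
      rw [nf, ng]; rfl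
    · exact (Part.mem_bind (eg n) (ef _) : _ ∈ (cg.eval n).bind cf.eval)
  | @prec f g _ _ ihf ihg =>
    obtain ⟨cf, nf, ef⟩ := ihf
    obtain ⟨cg, ng, eg⟩ := ihg
    refine ⟨Code.prec cf cg, ?_, fun n => ?_⟩
    · show (t49_nr cf && t49_nr cg) = true
      rw [nf, ng]; rfl
    · have key : ∀ a k : ℕ, Nat.rec (f a) (fun y IH => g (Nat.pair a (Nat.pair y IH))) k ∈
          (Code.prec cf cg).eval (Nat.pair a k) := by
        intro a k
        induction k with
        | zero => rw [Code.eval_prec_zero]; exact ef a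
        | succ k ih =>
          rw [Code.eval_prec_succ]
          simp only [Part.bind_eq_bind, Part.mem_bind_iff]
          exact ⟨_, ih, eg _⟩
      have := key n.unpair.1 n.unpair.2
      rw [Nat.pair_unpair] at this
      exact this

/-- the universal partial function -/
noncomputable def t49_g (x : ℕ × ℕ) : Part Bool :=
  cond (t49_nr (Denumerable.ofNat Code x.1))
    (((Denumerable.ofNat Code x.1).eval x.2).map fun v => decide (v = 2)) (Part.some false)

theorem t49_g_partrec : Partrec t49_g := by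
  refine Partrec.cond ?_ ?_ ?_
  · exact (t49_nr_prim.comp ((Primrec.ofNat Code).comp Primrec.fst)).to_comp
  · refine Partrec.map ?_ ?_
    · exact Code.eval_part.comp ((Primrec.ofNat Code).comp Primrec.fst).to_comp Computable.snd
    · have : Primrec fun p : (ℕ × ℕ) × ℕ => decide (p.2 = 2) :=
        PrimrecPred.decide (Primrec.eq.comp Primrec.snd (Primrec.const 2))
      exact this.to_comp.to₂
  · exact (Computable.const false).partrec

theorem t49_g_dom (x : ℕ × ℕ) : (t49_g x).Dom := by
  unfold t49_g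
  cases h : t49_nr (Denumerable.ofNat Code x.1)
  · exact trivial
  · obtain ⟨v, hv⟩ := t49_total _ h x.2
    show ((Denumerable.ofNat Code x.1).eval x.2).Dom
    exact Part.dom_iff_mem.2 ⟨v, hv⟩

theorem exists_universal : ∃ C : ℕ → ℕ → Bool, Computable₂ C ∧
    ∀ f : ℕ → Bool, Primrec f → ∃ i, ∀ n, C i n = f n := by
  refine ⟨fun i n => (t49_g (i, n)).get (t49_g_dom (i, n)), ?_, ?_⟩
  · refine Partrec.of_eq_tot t49_g_partrec fun x => ?_
    exact Part.get_mem _
  · intro f hf
    obtain ⟨c, hc, hev⟩ := t49_complete hf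
    refine ⟨encode c, fun n => ?_⟩
    have h1 : encode (f n) + 1 ∈ c.eval n := by
      have := hev n
      simpa using this
    have h2 : f n ∈ t49_g (encode c, n) := by
      unfold t49_g
      rw [Denumerable.ofNat_encode, hc]
      show f n ∈ (c.eval n).map fun v => decide (v = 2)
      rw [Part.mem_map_iff]
      refine ⟨_, h1, ?_⟩
      cases f n <;> simp
    exact Part.get_eq_of_mem h2 _

end Pool.Agent.H548R2.Post
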