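import Pool.Agent.H548R2.Post.T01
import Pool.Agent.H548R2.Post.T02
import Pool.Agent.H548R2.Post.T03
import Pool.Agent.H548R2.Post.T04
import Pool.Agent.H548R2.Post.T05
import Pool.Agent.H548R2.Post.T06
import Pool.Agent.H548R2.Post.T07
import Pool.Agent.H548R2.Post.T08
import Pool.Agent.H548R2.Post.T09
import Pool.Agent.H548R2.Post.T10
import Pool.Agent.H548R2.Post.T11
import Pool.Agent.H548R2.Post.T12
import Pool.Agent.H548R2.Post.T13
import Pool.Agent.H548R2.Post.T14
import Pool.Agent.H548R2.Post.T15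
import Pool.Agent.H548R2.Post.T16
import Pool.Agent.H548R2.Post.T17
import Pool.Agent.H548R2.Post.T18
import Pool.Agent.H548R2.Post.T19
import Pool.Agent.H548R2.Post.T20
import Pool.Agent.H548R2.Post.T21
import Pool.Agent.H548R2.Post.T22
import Pool.Agent.H548R2.Post.T23
import Pool.Agent.H548R2.Post.T24
import Pool.Agent.H548R2.Post.T25
import Pool.Agent.H548R2.Post.T26
import Pool.Agent.H548R2.Post.T27
import Pool.Agent.H548R2.Post.T28
import Pool.Agent.H548R2.Post.T29
import Pool.Agent.H548R2.Post.T30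
import Pool.Agent.H548R2.Post.T31
import Pool.Agent.H548R2.Post.T32
import Pool.Agent.H548R2.Post.T33
import Pool.Agent.H548R2.Post.T34
import Pool.Agent.H548R2.Post.T35
import Pool.Agent.H548R2.Post.T36
import Pool.Agent.H548R2.Post.T37
import Pool.Agent.H548R2.Post.T38
import Pool.Agent.H548R2.Post.T39
import Pool.Agent.H548R2.Post.T40
import Pool.Agent.H548R2.Post.T41
import Pool.Agent.H548R2.Post.T42
import Pool.Agent.H548R2.Post.T43
import Pool.Agent.H548R2.Post.T44
import Pool.Agent.H548R2.Post.T45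
import Pool.Agent.H548R2.Post.T46
import Pool.Agent.H548R2.Post.T47
import Pool.Agent.H548R2.Post.T48
import Pool.Agent.H548R2.Post.T49

set_option autoImplicit false

namespace Pool.Agent.H548R2.Post

open Encodable Pool.Agent.Helper227
open Nat.Partrec (Code)

open Classical in
/-- The characteristic sequence of a set of natural numbers. -/
noncomputable def chr (S : Set ℕ) : ℕ → Bool := fun n => decide (n ∈ S)

theorem chr_WB {D : ℕ → ℕ → Bool} {X : ℕ → Bool} : chr {m | WB D X m = true} = WB D X := by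
  funext m
  simp [chr]

theorem not_jump_le_WB {D : ℕ → ℕ → Bool} (hD : Computable₂ D) (hG : IsGrp D) (X : ℕ → Bool) :
    ¬ TLe (jump X) (WB D X) := fun h =>
  not_jump_le (WB D X) (TuringReducible.trans (low hD hG X) h)

theorem main (C : ℕ → ℕ → Bool) (hC : Computable₂ C) : ∃ e : ℕ,
    (∀ X : ℕ → Bool, TLe X (chr (WE X e)) ∧ ¬ TLe (chr (WE X e)) X ∧
      TLe (chr (WE X e)) (jump X) ∧ ¬ TLe (jump X) (chr (WE X e)) ∧
      TLe (jump (chr (WE X e))) (jump X)) ∧
    ∀ X Y : ℕ → Bool, (∃ i, ∀ n, C i n = xor (X n) (Y n)) →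
      TLe (chr (WE X e)) (chr (WE Y e)) ∧ TLe (chr (WE Y e)) (chr (WE X e)) := by
  obtain ⟨D, hD, hG, hDC⟩ := exists_grp C hC
  obtain ⟨e, he⟩ := exists_index hD hG
  refine ⟨e, fun X => ?_, fun X Y => ?_⟩
  · rw [he X, chr_WB]
    exact ⟨le_WB D X, not_WB_le hG X, WB_le_jump hD hG X, not_jump_le_WB hD hG X, low hD hG X⟩
  · rintro ⟨i, hi⟩
    have h1 : sh D (2 ^ i) X = Y := by
      funext n
      simp only [sh, hDC, hi]
      cases X n <;> cases Y n <;> rfl
    have h2 : sh D (2 ^ i) Y = X := by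
      rw [← h1, sh_self]
    rw [he X, he Y, chr_WB, chr_WB]
    constructor
    · have := WB_sh_le hD hG (2 ^ i) Y
      rwa [h2] at this
    · have := WB_sh_le hD hG (2 ^ i) X
      rwa [h1] at this

theorem computable_merge {C U : ℕ → ℕ → Bool} (hC : Computable₂ C) (hU : Computable₂ U) :
    Computable₂ fun i n => cond (decide (i % 2 = 0)) (C (i / 2) n) (U (i / 2) n) := by
  have h1 : Computable fun x : ℕ × ℕ => decide (x.1 % 2 = 0) :=
    (PrimrecPred.decide (Primrec.eq.comp
      (Primrec.nat_mod.comp Primrec.fst (Primrec.const 2)) (Primrec.const 0))).to_comp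
  have h2 : Computable fun x : ℕ × ℕ => x.1 / 2 :=
    (Primrec.nat_div.comp Primrec.fst (Primrec.const 2)).to_comp
  exact Computable.cond h1 (hC.comp h2 Computable.snd) (hU.comp h2 Computable.snd)

theorem main_both (C : ℕ → ℕ → Bool) (hC : Computable₂ C) : ∃ e : ℕ,
    (∀ X : ℕ → Bool, TLe X (chr (WE X e)) ∧ ¬ TLe (chr (WE X e)) X ∧
      TLe (chr (WE X e)) (jump X) ∧ ¬ TLe (jump X) (chr (WE X e)) ∧
      TLe (jump (chr (WE X e))) (jump X)) ∧
    ∀ X Y : ℕ → Bool,
      ((∃ i, ∀ n, xor (X n) (Y n) = C i n) ∨ Primrec (fun n => xor (X n) (Y n))) →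
      TLe (chr (WE X e)) (chr (WE Y e)) ∧ TLe (chr (WE Y e)) (chr (WE X e)) := by
  obtain ⟨U, hU, h⟩ := exists_universal
  obtain ⟨e, h1, h2⟩ := main _ (computable_merge hC hU)
  refine ⟨e, h1, fun X Y hXY => h2 X Y ?_⟩
  rcases hXY with ⟨i, hi⟩ | hp
  · refine ⟨2 * i, fun n => ?_⟩
    have e1 : 2 * i % 2 = 0 := by omega
    have e2 : 2 * i / 2 = i := by omega
    simp only [e1, e2, hi]
    rfl
  · obtain ⟨i, hi⟩ := h _ hp
    refine ⟨2 * i + 1, fun n => ?_⟩
    have e1 : (2 * i + 1) % 2 = 1 := by omega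
    have e2 : (2 * i + 1) / 2 = i := by omega
    simp only [e1, e2]
    simpa using hi n

end Pool.Agent.H548R2.Post
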