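import Pool.Agent.H548R2.Post.Defs

/-! Statements of all tasks (in the namespace `Pool.Agent.H548R2.Post.Stub`). Not used in the final
proof. -/

namespace Pool.Agent.H548R2.Post.Stub

open Encodable Pool.Agent.Helper227 Pool.Agent.H548R2.Post
open Nat.Partrec (Code)

/-! ### B: basic facts -/

theorem hlt_mono {s s' : ℕ} (h : s ≤ s') {e z : ℕ} {τ : List Bool} (h1 : hlt s e z τ = true) :
    hlt s' e z τ = true := sorry

theorem exists_hlt_iff (e z : ℕ) (τ : List Bool) :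
    (∃ s, hlt s e z τ = true) ↔ ((Denumerable.ofNat Code e).eval (encode (τ, z))).Dom := sorry

theorem En_mono {s s' : ℕ} (h : s ≤ s') {e z : ℕ} {Y : ℕ → Bool} (h1 : En s e z Y) :
    En s' e z Y := sorry

theorem mem_WE_iff (Y : ℕ → Bool) (e z : ℕ) : z ∈ WE Y e ↔ ∃ s, En s e z Y := sorry

theorem En_congr {s e z : ℕ} {Y Z : ℕ → Bool} (h : ∀ i < s, Y i = Z i) :
    En s e z Y ↔ En s e z Z := sorry

theorem res_congr {s e : ℕ} {Y Z : ℕ → Bool} (h : ∀ i < s, Y i = Z i) :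
    res s e Y = res s e Z := sorry

theorem res_le (s e : ℕ) (Y : ℕ → Bool) : res s e Y ≤ s := sorry

theorem En_iff_res {s e : ℕ} {Y : ℕ → Bool} :
    En s e e Y ↔ hlt s e e (pre Y (res s e Y)) = true := sorry

theorem res_le_of_hlt {s e t : ℕ} {Y : ℕ → Bool} (ht : t ≤ s)
    (h : hlt s e e (pre Y t) = true) : res s e Y ≤ t := sorry

theorem sh_sh {D : ℕ → ℕ → Bool} (hD : IsGrp D) (j k : ℕ) (X : ℕ → Bool) :
    sh D j (sh D k X) = sh D (j ^^^ k) X := sorry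

theorem sh_zero {D : ℕ → ℕ → Bool} (hD : IsGrp D) (X : ℕ → Bool) : sh D 0 X = X := sorry

theorem sh_self {D : ℕ → ℕ → Bool} (k : ℕ) (X : ℕ → Bool) : sh D k (sh D k X) = X := sorry

theorem A_mono {D : ℕ → ℕ → Bool} {s s' : ℕ} (h : s ≤ s') {X : ℕ → Bool} {z : ℕ}
    (hz : z ∈ A D s X) : z ∈ A D s' X := sorry

theorem mem_A_succ {D : ℕ → ℕ → Bool} {s : ℕ} {X : ℕ → Bool} {z : ℕ} :
    z ∈ A D (s + 1) X ↔ z ∈ A D s X ∨ ∃ n < s, act D (A D s) s n X = some z := sorry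

theorem act_spec {D : ℕ → ℕ → Bool} {a : (ℕ → Bool) → List ℕ} {s n : ℕ} {X : ℕ → Bool} {z : ℕ}
    (h : act D a s n X = some z) : z < s ∧ Good D a s n X z := sorry

theorem act_ne_none {D : ℕ → ℕ → Bool} {a : (ℕ → Bool) → List ℕ} {s n : ℕ} {X : ℕ → Bool} {z : ℕ}
    (hz : z < s) (h : Good D a s n X z) : act D a s n X ≠ none := sorry

theorem WB_even {D : ℕ → ℕ → Bool} (X : ℕ → Bool) (m : ℕ) : WB D X (2 * m) = X m := sorry

theorem WB_odd {D : ℕ → ℕ → Bool} (X : ℕ → Bool) (m : ℕ) :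
    WB D X (2 * m + 1) = true ↔ ∃ s, m ∈ A D s X := sorry

/-! ### C: the combinatorics of the construction -/

/-- C1 -/
theorem A_local (D : ℕ → ℕ → Bool) (s : ℕ) (X Y : ℕ → Bool) (h : ∀ i < s, X i = Y i) :
    A D s X = A D s Y := sorry

/-- C2 -/
theorem act_sh {D : ℕ → ℕ → Bool} (hD : IsGrp D) (a : (ℕ → Bool) → List ℕ) (s n j : ℕ)
    (hj : j < 2 ^ n) (X : ℕ → Bool) : act D a s n (sh D j X) = act D a s n X := sorry

/-- C3 -/
theorem act_finite {D : ℕ → ℕ → Bool} (hD : IsGrp D) (X : ℕ → Bool) (n : ℕ) :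
    {s | n < s ∧ act D (A D s) s n X ≠ none}.Finite ∧
      {s | n < s ∧ act D (A D s) s n X ≠ none}.ncard ≤ 2 ^ n := sorry

/-- C3b -/
theorem act_eventually {D : ℕ → ℕ → Bool} (hD : IsGrp D) (X : ℕ → Bool) (N : ℕ) :
    ∃ s0, N ≤ s0 ∧ ∀ s ≥ s0, ∀ n < N, act D (A D s) s n X = none := sorry

/-- C4 -/
theorem jn_stable (D : ℕ → ℕ → Bool) (X : ℕ → Bool) (b : ℕ) :
    ∃ s0, ∀ s ≥ s0, ∀ i < b, jn X (A D s X) i = WB D X i := sorry

/-- C5 -/
theorem coinfinite {D : ℕ → ℕ → Bool} (hD : IsGrp D) (X : ℕ → Bool) :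
    {z | ¬ ∃ s, z ∈ A D s X}.Infinite := sorry

/-- C6a: a computation seen after the higher priority requirements have finished is preserved -/
theorem res_step {D : ℕ → ℕ → Bool} (hD : IsGrp D) (X : ℕ → Bool) {s e : ℕ}
    (h0 : ∀ n < e + 1, act D (A D s) s n X = none)
    (h : En s e e (jn X (A D s X))) :
    En (s + 1) e e (jn X (A D (s + 1) X)) ∧
      res (s + 1) e (jn X (A D (s + 1) X)) ≤ res s e (jn X (A D s X)) := sorry

/-- C6b -/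
theorem res_bounded {D : ℕ → ℕ → Bool} (hD : IsGrp D) (X : ℕ → Bool) (e : ℕ) :
    ∃ b, ∀ s, res s e (jn X (A D s X)) ≤ b := sorry

/-- C7a -/
theorem jump_true {D : ℕ → ℕ → Bool} (X : ℕ → Bool) (e : ℕ)
    (h : jump (WB D X) e = true) : ∃ s0, ∀ s ≥ s0, En s e e (jn X (A D s X)) := sorry

/-- C7b -/
theorem jump_false {D : ℕ → ℕ → Bool} (hD : IsGrp D) (X : ℕ → Bool) (e : ℕ)
    (h : jump (WB D X) e = false) : ∃ s0, ∀ s ≥ s0, ¬ En s e e (jn X (A D s X)) := sorry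

/-- C8 -/
theorem simple {D : ℕ → ℕ → Bool} (hD : IsGrp D) (X : ℕ → Bool) (n : ℕ)
    (h : (WE X n).Infinite) : ∃ z ∈ WE X n, ∃ s, z ∈ A D s X := sorry

/-- C9 -/
theorem almost_equal {D : ℕ → ℕ → Bool} (hD : IsGrp D) (X : ℕ → Bool) (k : ℕ) :
    ∃ b, ∀ z ≥ b, ((∃ s, z ∈ A D s X) ↔ ∃ s, z ∈ A D s (sh D k X)) := sorry

/-! ### P: computability of the construction -/

theorem primrec_pow : Primrec₂ (fun a b : ℕ => a ^ b) := sorry

theorem primrec_hlt : Primrec fun x : ℕ × ℕ × ℕ × List Bool => hlt x.1 x.2.1 x.2.2.1 x.2.2.2 :=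
  sorry

theorem primrec_mX : Primrec fun x : (List Bool × List Bool) × ℕ × ℕ =>
    mX x.1.1 x.1.2 x.2.1 x.2.2 := sorry

theorem primrec_pX : Primrec fun x : (List Bool × List Bool) × ℕ × ℕ =>
    pX x.1.1 x.1.2 x.2.1 x.2.2 := sorry

theorem primrec_pJ : Primrec fun x : (List Bool × List Bool) × (ℕ × List ℕ) × ℕ =>
    pJ x.1.1 x.1.2 x.2.1.1 x.2.1.2 x.2.2 := sorry

theorem primrec_enB : Primrec fun x : (List Bool × List Bool) × ℕ × ℕ × ℕ × ℕ =>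
    enB x.2.1 x.2.2.1 x.2.2.2.1 x.1.1 x.1.2 x.2.2.2.2 := sorry

theorem primrec_resB : Primrec fun x : (List Bool × List Bool) × (ℕ × ℕ) × ℕ × List ℕ =>
    resB x.2.1.1 x.2.1.2 x.1.1 x.1.2 x.2.2.1 x.2.2.2 := sorry

theorem primrec_cl : Primrec fun x : ℕ × ℕ × ℕ => cl x.1 x.2.1 x.2.2 := sorry

theorem primrec_goodB : Primrec fun x : ((List Bool × List Bool) × List (List ℕ)) × (ℕ × ℕ × ℕ) × ℕ =>
    goodB x.1.1.1 x.1.1.2 x.1.2 x.2.1.1 x.2.1.2.1 x.2.1.2.2 x.2.2 := sorry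

theorem primrec_actB : Primrec fun x : ((List Bool × List Bool) × List (List ℕ)) × ℕ × ℕ × ℕ =>
    actB x.1.1.1 x.1.1.2 x.1.2 x.2.1 x.2.2.1 x.2.2.2 := sorry

theorem primrec_stepB : Primrec fun x : ((List Bool × List Bool) × List (List ℕ)) × ℕ =>
    stepB x.1.1.1 x.1.1.2 x.1.2 x.2 := sorry

theorem primrec_tabB : Primrec fun x : (List Bool × List Bool) × ℕ => tabB x.1.1 x.1.2 x.2 := sorry

/-- a decision for the enumeration at a finite stage -/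
theorem primrec_En : PrimrecPred fun x : (ℕ × ℕ × ℕ) × List Bool × List ℕ =>
    En x.1.1 x.1.2.1 x.1.2.2 (jn (ext x.2.1) x.2.2) := sorry

theorem computable_dtab {D : ℕ → ℕ → Bool} (hD : Computable₂ D) : Computable (dtab D) := sorry

/-! ### Q: correctness of the finite construction -/

theorem mX_eq {D : ℕ → ℕ → Bool} {N : ℕ} {σ : List Bool} {k i : ℕ} (h : Nat.pair k i < N) :
    mX (dtab D N) σ k i = sh D k (ext σ) i := sorry

theorem enB_iff {D : ℕ → ℕ → Bool} {N : ℕ} {σ : List Bool} {s n z k : ℕ}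
    (h : ∀ i < s, Nat.pair k i < N) :
    enB s n z (dtab D N) σ k = true ↔ En s n z (sh D k (ext σ)) := sorry

theorem resB_eq {D : ℕ → ℕ → Bool} {N : ℕ} {σ : List Bool} {s e k : ℕ} {a : List ℕ}
    (h : ∀ i < s, Nat.pair k i < N) :
    resB s e (dtab D N) σ k a = res s e (jn (sh D k (ext σ)) a) := sorry

theorem class_forall (n k : ℕ) (P : ℕ → Prop) :
    (∀ j < 2 ^ n, P (cl n k j)) ↔ ∀ j < 2 ^ n, P (j ^^^ k) := sorry

theorem class_exists (n k : ℕ) (P : ℕ → Prop) :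
    (∃ j < 2 ^ n, P (cl n k j)) ↔ ∃ j < 2 ^ n, P (j ^^^ k) := sorry

theorem cl_lt {n L k j : ℕ} (hn : n ≤ L) (hk : k < 2 ^ L) (hj : j < 2 ^ n) :
    cl n k j < 2 ^ L := sorry

theorem goodB_iff {D : ℕ → ℕ → Bool} (hD : IsGrp D) {N s n k z : ℕ} {σ : List Bool}
    {V : List (List ℕ)} (hs : s ≤ σ.length) (hn : n ≤ σ.length) (hk : k < 2 ^ σ.length)
    (hN : ∀ k < 2 ^ σ.length, ∀ i < s, Nat.pair k i < N)
    (hV : ∀ k < 2 ^ σ.length, V.getD k [] = A D s (sh D k (ext σ))) :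
    goodB (dtab D N) σ V s n k z = true ↔ Good D (A D s) s n (sh D k (ext σ)) z := sorry

theorem tabB_eq {D : ℕ → ℕ → Bool} (hD : IsGrp D) {N : ℕ} {σ : List Bool}
    (hN : ∀ k < 2 ^ σ.length, ∀ i < σ.length, Nat.pair k i < N) (s : ℕ) (hs : s ≤ σ.length)
    (k : ℕ) (hk : k < 2 ^ σ.length) :
    (tabB (dtab D N) σ s).getD k [] = A D s (sh D k (ext σ)) := sorry

/-- P3 -/
theorem computable_A {D : ℕ → ℕ → Bool} (hD : Computable₂ D) (hG : IsGrp D) :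
    Computable fun σ : List Bool => A D σ.length (ext σ) := sorry

theorem A_ext_pre (D : ℕ → ℕ → Bool) (s : ℕ) (X : ℕ → Bool) :
    A D (pre X s).length (ext (pre X s)) = A D s X := sorry

/-! ### D: degrees -/

/-- D1 -/
theorem si_A {D : ℕ → ℕ → Bool} (hD : Computable₂ D) (hG : IsGrp D) (X : ℕ → Bool) :
    SI X fun z : ℕ => ∃ s, z ∈ A D s X := sorry

/-- D1b -/
theorem si_WB {D : ℕ → ℕ → Bool} (hD : Computable₂ D) (hG : IsGrp D) (X : ℕ → Bool) :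
    SI X fun m : ℕ => WB D X m = true := sorry

/-- D2 -/
theorem le_WB (D : ℕ → ℕ → Bool) (X : ℕ → Bool) : TLe X (WB D X) := sorry

/-- D3 -/
theorem exists_index {D : ℕ → ℕ → Bool} (hD : Computable₂ D) (hG : IsGrp D) :
    ∃ e : ℕ, ∀ X : ℕ → Bool, WE X e = {m | WB D X m = true} := sorry

/-- D3b -/
theorem WB_le_jump {D : ℕ → ℕ → Bool} (hD : Computable₂ D) (hG : IsGrp D) (X : ℕ → Bool) :
    TLe (WB D X) (jump X) := sorry

/-- D4 -/
theorem not_WB_le {D : ℕ → ℕ → Bool} (hG : IsGrp D) (X : ℕ → Bool) :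
    ¬ TLe (WB D X) X := sorry

/-- D5a -/
theorem si_En {D : ℕ → ℕ → Bool} (hD : Computable₂ D) (hG : IsGrp D) (X : ℕ → Bool) :
    (SI X fun x : ℕ × ℕ => En x.2 x.1 x.1 (jn X (A D x.2 X))) ∧
      SI X fun x : ℕ × ℕ => ¬ En x.2 x.1 x.1 (jn X (A D x.2 X)) := sorry

/-- D5b: limit lemma -/
theorem tLe_jump_of_limit {X Z : ℕ → Bool} {p : ℕ → ℕ → Prop}
    (h1 : SI X fun x : ℕ × ℕ => p x.1 x.2) (h2 : SI X fun x : ℕ × ℕ => ¬ p x.1 x.2)
    (h3 : ∀ e, Z e = true → ∃ s0, ∀ s ≥ s0, p e s)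
    (h4 : ∀ e, Z e = false → ∃ s0, ∀ s ≥ s0, ¬ p e s) : TLe Z (jump X) := sorry

/-- D5 -/
theorem low {D : ℕ → ℕ → Bool} (hD : Computable₂ D) (hG : IsGrp D) (X : ℕ → Bool) :
    TLe (jump (WB D X)) (jump X) := sorry

/-- D6 -/
theorem not_jump_le (Y : ℕ → Bool) : ¬ TLe (jump Y) Y := sorry

/-- D7a -/
theorem tLe_of_fun {Y Z : ℕ → Bool} {g : ℕ → Bool → Bool} (hg : Computable₂ g)
    (h : ∀ n, Y n = g n (Z n)) : TLe Y Z := sorry

/-- D7 -/
theorem WB_sh_le {D : ℕ → ℕ → Bool} (hD : Computable₂ D) (hG : IsGrp D) (k : ℕ) (X : ℕ → Bool) :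
    TLe (WB D (sh D k X)) (WB D X) := sorry

/-! ### U: families -/

/-- U1 -/
theorem exists_grp (C : ℕ → ℕ → Bool) (hC : Computable₂ C) :
    ∃ D : ℕ → ℕ → Bool, Computable₂ D ∧ IsGrp D ∧ ∀ i j, D (2 ^ i) j = C i j := sorry

/-- U2 -/
theorem exists_universal : ∃ C : ℕ → ℕ → Bool, Computable₂ C ∧
    ∀ f : ℕ → Bool, Primrec f → ∃ i, ∀ n, C i n = f n := sorry

end Pool.Agent.H548R2.Post.Stub
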