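import Pool.Agent.H548R2.Post.Defs
set_option autoImplicit false
namespace Pool.Agent.H548R2.Post
open Encodable Pool.Agent.Helper227
open Nat.Partrec (Code)

/-- D6 -/
theorem not_jump_le (Y : ℕ → Bool) : ¬ TLe (jump Y) Y := by
  intro h
  have h1 : SI Y fun x : ℕ × Bool => jump Y x.1 = x.2 := tLe_iff_SI.1 h
  have h2 : SI Y fun e : ℕ => jump Y e = false :=
    h1.comp (f := fun e : ℕ => (e, false)) (Primrec.id.pair (Primrec.const false))
  have h3 : CEIn Y {e | jump Y e = false} := SI.iff_ceIn.2 h2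
  obtain ⟨n, hn⟩ := ceIn_iff_exists_WE.1 h3
  have h4 : n ∈ WE Y n ↔ jump Y n = false := by
    rw [← hn]
    rfl
  rw [← jump_eq_true] at h4
  cases hj : jump Y n
  · rw [hj] at h4
    simp at h4
  · rw [hj] at h4
    simp at h4

end Pool.Agent.H548R2.Post
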